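import Pool.Agent.Lib_MP_42fe4d_lc.TM.Lite

/-!
# Closure properties of polynomial time functions on lists and codes of matrices
-/

namespace Pool.Agent.Lib_MP_8cd8c6_lc

open Pool.Agent.PartSep Pool.Agent.PartSep.TM Pool.Agent.PartSep.TM.Rep

set_option synthInstance.maxSize 2000

/-! ### Types with injective representations -/

/-- the representation is injective -/
class RepInj (E : Type) [Rep E] : Prop where
  inj : ∀ x y : E, (∀ j, rep x j = rep y j) → x = y

instance : RepInj (List Sym) := ⟨fun _ _ h => h ()⟩

instance : RepInj ℕ := ⟨fun x y h => by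
  have := congrArg List.length (h ())
  change (List.replicate x Sym.i).length = (List.replicate y Sym.i).length at this
  simpa using this⟩

instance : RepInj Bool := ⟨fun x y h => by
  have := h ()
  change (if x then [Sym.i] else []) = (if y then [Sym.i] else []) at this
  revert this
  cases x <;> cases y <;> simp⟩

variable {E F G : Type} [Rep E] [Rep F] [Rep G]

instance [RepInj E] [RepInj F] : RepInj (E × F) := ⟨fun x y h =>
  Prod.ext (RepInj.inj _ _ (fun j => h (Sum.inl j))) (RepInj.inj _ _ (fun j => h (Sum.inr j)))⟩

instance [RepInj E] : RepInj (List E) := ⟨fun x => by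
  induction x with
  | nil =>
    intro y h
    have := congrArg List.length (h none)
    change (List.replicate _ Sym.i).length = (List.replicate y.length Sym.i).length at this
    rw [List.length_replicate, List.length_replicate] at this
    exact (List.length_eq_zero_iff.1 this.symm).symm
  | cons a x ih =>
    intro y h
    cases y with
    | nil =>
      have := congrArg List.length (h none)
      change (List.replicate (x.length + 1) Sym.i).length = (List.replicate 0 Sym.i).length at this
      simp at this
    | cons b y =>
      have h1 : ∀ j : ix E, rep a j = rep b j ∧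
          x.flatMap (fun a => esc (rep a j)) = y.flatMap (fun a => esc (rep a j)) := by
        intro j
        have h2 := h (some j)
        change esc (rep a j) ++ x.flatMap (fun a => esc (rep a j)) =
          esc (rep b j) ++ y.flatMap (fun a => esc (rep a j)) at h2
        have h3 := congrArg unesc h2
        rw [unesc_esc, unesc_esc, Prod.mk.injEq] at h3
        exact h3
      have h4 : a = b := RepInj.inj _ _ (fun j => (h1 j).1)
      have h5 : x = y := by
        apply ih
        rintro (_ | j)
        · have := congrArg List.length (h none)
          change (List.replicate (x.length + 1) Sym.i).length =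
            (List.replicate (y.length + 1) Sym.i).length at this
          rw [List.length_replicate, List.length_replicate] at this
          change List.replicate x.length Sym.i = List.replicate y.length Sym.i
          have : x.length = y.length := by omega
          rw [this]
        · exact (h1 j).2
      rw [h4, h5]⟩

theorem fpx_all {ι : Type} (L : List ι) {g : ι → E → Bool} (hg : ∀ a, FP (g a)) :
    FP (fun x => L.all (fun a => g a x)) := by
  induction L with
  | nil => exact FP.const _
  | cons a L ih => exact FP.and (hg a) ih

theorem FP.eqR [RepInj F] [DecidableEq F] {f g : E → F} (hf : FP f) (hg : FP g) :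
    FP (fun x => decide (f x = g x)) := by
  refine (fpx_all (Finset.univ : Finset (ix F)).toList
    (g := fun j x => decide ((rep (f x) j : List Sym) = rep (g x) j))
    (fun j => (FP.eqS (hf.comp_rep j) (hg.comp_rep j)).congr (fun x => by
      rw [Bool.eq_iff_iff]))).congr (fun x => ?_)
  rw [Bool.eq_iff_iff]
  simp only [List.all_eq_true, Finset.mem_toList, Finset.mem_univ, decide_eq_true_eq,
    forall_const]
  constructor
  · exact fun h => RepInj.inj _ _ h
  · exact fun h j => by rw [h]

theorem fp_any {ι : Type} (L : List ι) {g : ι → E → Bool} (hg : ∀ a, FP (g a)) :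
    FP (fun x => L.any (fun a => g a x)) := by
  induction L with
  | nil => exact FP.const _
  | cons a L ih => exact FP.or (hg a) ih

/-! ### Codes of matrices -/

/-- the matrix with entries `M i j` as a string -/
noncomputable def matS (n : ℕ) (M : ℕ → ℕ → Bool) : List Sym :=
  (List.range n).flatMap (fun i => del ((List.range n).flatMap (fun j => del [bs (M i j)])))

/-- the number of rows of the matrix coded by a string -/
noncomputable def rows (s : List Sym) : ℕ := (splitB s).length

/-- the entries of the matrix coded by a string -/
noncomputable def ent (s : List Sym) (i j : ℕ) : Bool :=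
  decide ((splitB ((splitB s)[i]?.getD []))[j]?.getD [] = [Sym.i])

theorem splitB_matS (n : ℕ) (M : ℕ → ℕ → Bool) : splitB (matS n M) =
    (List.range n).map (fun i => (List.range n).flatMap (fun j => del [bs (M i j)])) := by
  unfold matS
  rw [← List.flatMap_map (f := fun i => (List.range n).flatMap (fun j => del [bs (M i j)]))
    (g := del), splitB_flatMap]

theorem rows_matS (n : ℕ) (M : ℕ → ℕ → Bool) : rows (matS n M) = n := by
  unfold rows
  rw [splitB_matS, List.length_map, List.length_range]

theorem ent_matS {n : ℕ} {M : ℕ → ℕ → Bool} {i j : ℕ} (hi : i < n) (hj : j < n) :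
    ent (matS n M) i j = M i j := by
  have e1 : (splitB (matS n M))[i]?.getD [] =
      (List.range n).flatMap (fun j => del [bs (M i j)]) := by
    rw [splitB_matS, List.getElem?_map, List.getElem?_range hi]
    rfl
  have e2 : (splitB ((List.range n).flatMap (fun j => del [bs (M i j)])))[j]?.getD [] =
      [bs (M i j)] := by
    rw [← List.flatMap_map (f := fun j => [bs (M i j)]) (g := del), splitB_flatMap,
      List.getElem?_map, List.getElem?_range hj]
    rfl
  unfold ent
  simp only [e1, e2]
  cases M i j <;> simp [bs]

/-- the string is the code of a graph -/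
noncomputable def valid (s : List Sym) : Bool :=
  decide (s = matS (rows s) (ent s)) &&
    (List.range (rows s)).all (fun i => (List.range (rows s)).all (fun j =>
      !(ent s i j != ent s j i) && !(ent s i i)))

theorem fp_allE [Inhabited F] {l : E → List F} (hl : FP l) {p : E × F → Bool} (hp : FP p) :
    FP (fun x => (l x).all (fun a => p (x, a))) := by
  refine (FP.isEmptyE (FP.flatMapE hl (g := fun y => if p y then ([] : List ℕ) else [0])
    (FP.ite hp (FP.const _) (FP.const _)))).congr (fun x => ?_)
  induction l x with
  | nil => rfl
  | cons a l ih =>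
    rw [List.flatMap_cons, List.all_cons]
    cases h : p (x, a)
    · simp
    · simp only [if_true, List.nil_append, Bool.true_and]
      exact ih

theorem fp_rows {s : E → List Sym} (hs : FP s) : FP (fun x => rows (s x)) :=
  FP.lengthE (FP.splitB hs)

theorem fp_ent {s : E → List Sym} (hs : FP s) {i j : E → ℕ} (hi : FP i) (hj : FP j) :
    FP (fun x => ent (s x) (i x) (j x)) :=
  FP.eqS (FP.getE (FP.splitB (FP.getE (FP.splitB hs) hi [])) hj []) (FP.const _)

theorem fp_bs {b : E → Bool} (hb : FP b) : FP (fun x => [bs (b x)]) :=
  (FP.ite hb (FP.const [Sym.i]) (FP.const [Sym.o])).congr (fun x => by cases b x <;> rfl)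

theorem fp_matS {s : E → List Sym} (hs : FP s) : FP (fun x => matS (rows (s x)) (ent (s x))) := by
  unfold matS
  refine FP.flatMapS (FP.range (fp_rows hs)) (g := fun y : E × ℕ =>
    del ((List.range (rows (s y.1))).flatMap (fun j => del [bs (ent (s y.1) y.2 j)]))) ?_
  refine FP.del (FP.flatMapS (FP.range (fp_rows (FP.comp hs FP.fst)))
    (g := fun z : (E × ℕ) × ℕ => del [bs (ent (s z.1.1) z.1.2 z.2)]) ?_)
  exact FP.del (fp_bs (fp_ent (FP.comp hs (FP.comp FP.fst FP.fst)) (FP.comp FP.snd FP.fst) FP.snd))

theorem fp_valid {s : E → List Sym} (hs : FP s) : FP (fun x => valid (s x)) := by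
  unfold valid
  refine FP.and (FP.eqS hs (fp_matS hs)) ?_
  refine fp_allE (FP.range (fp_rows hs)) (p := fun y : E × ℕ =>
    (List.range (rows (s y.1))).all (fun j =>
      !(ent (s y.1) y.2 j != ent (s y.1) j y.2) && !(ent (s y.1) y.2 y.2))) ?_
  refine fp_allE (FP.range (fp_rows (FP.comp hs FP.fst))) (p := fun z : (E × ℕ) × ℕ =>
      !(ent (s z.1.1) z.1.2 z.2 != ent (s z.1.1) z.2 z.1.2) && !(ent (s z.1.1) z.1.2 z.1.2)) ?_
  have h1 : FP (fun z : (E × ℕ) × ℕ => s z.1.1) := FP.comp hs (FP.comp FP.fst FP.fst)
  have h2 : FP (fun z : (E × ℕ) × ℕ => z.1.2) := FP.comp FP.snd FP.fst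
  have h3 : FP (fun z : (E × ℕ) × ℕ => z.2) := FP.snd
  exact FP.and (FP.not (FP.bne (fp_ent h1 h2 h3) (fp_ent h1 h3 h2))) (FP.not (fp_ent h1 h2 h2))

end Pool.Agent.Lib_MP_8cd8c6_lc
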