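import Pool.Agent.Lib_MP_8cd8c6_lc.Defs
import Pool.Prelude.Def_F_458e953d

/-!
# The decision problem CIRC<3
-/

namespace Pool.Agent.Lib_MP_8cd8c6_lc

open Classical in
/-- The code of a graph on the vertices `0, …, n - 1` as a bit string: the code of its adjacency
matrix, a list of rows. -/
noncomputable def encodeGraph {n : ℕ} (G : SimpleGraph (Fin n)) : List Bool :=
  N487b59b3.bitEncode (List.ofFn fun i => List.ofFn fun j => decide (G.Adj i j))

open Classical in
/-- The decision problem CIRC<3: is the given string the code of a graph whose circular chromatic
number is less than `3`? -/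
noncomputable def circLT3 : List Bool → Bool := fun w =>
  decide (∃ (n : ℕ) (G : SimpleGraph (Fin n)), w = encodeGraph G ∧ circChromatic G < 3)

end Pool.Agent.Lib_MP_8cd8c6_lc
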