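import Pool.Agent.Lib_MP_8cd8c6_lc.Nae
import Pool.Agent.Lib_MP_8cd8c6_lc.Problem

/-!
# CIRC<3 is NP-complete
-/

namespace Pool.Agent.Lib_MP_8cd8c6_lc

open Pool.Agent.PartSep Pool.Agent.PartSep.TM Pool.Agent.PartSep.CL
open Pool.Agent.PartSep.TM.Rep N487b59b3

set_option synthInstance.maxSize 2000

theorem encodeGraph_inj {n m : ℕ} {G : SimpleGraph (Fin n)} {H : SimpleGraph (Fin m)}
    (h : encodeGraph G = encodeGraph H) : circChromatic G = circChromatic H := by
  classical
  have h1 := bitEncode_injective h
  have h2 := congrArg List.length h1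
  rw [List.length_ofFn, List.length_ofFn] at h2
  subst h2
  have h3 := List.ofFn_injective h1
  have h4 : G = H := by
    ext i j
    have h5 := congrFun h3 i
    have h6 := congrFun (List.ofFn_injective h5) j
    simpa using h6
  rw [h4]

theorem circLT3_encode {n : ℕ} (G : SimpleGraph (Fin n)) :
    circLT3 (encodeGraph G) = true ↔ circChromatic G < 3 := by
  classical
  unfold circLT3
  rw [decide_eq_true_eq]
  constructor
  · rintro ⟨m, H, h1, h2⟩
    rw [encodeGraph_inj h1]
    exact h2
  · exact fun h => ⟨n, G, rfl, h⟩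

/-! ### Hardness -/

/-- the adjacency matrix of the reduction graph as a string -/
noncomputable def outG (l : List (Desc (NV Name))) : List Sym :=
  l.flatMap (fun p => del (l.flatMap (fun q => del [bs (relB p q || relB q p)])))

theorem fp_outG : FP outG := by
  refine FP.flatMapS FP.id (g := fun y : List (Desc (NV Name)) × Desc (NV Name) =>
    del (y.1.flatMap (fun q => del [bs (relB y.2 q || relB q y.2)]))) ?_
  refine FP.del (FP.flatMapS FP.fst (g := fun z : (List (Desc (NV Name)) × Desc (NV Name)) ×
    Desc (NV Name) => del [bs (relB z.1.2 z.2 || relB z.2 z.1.2)]) ?_)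
  have h1 : FP (fun z : (List (Desc (NV Name)) × Desc (NV Name)) × Desc (NV Name) =>
      relB z.1.2 z.2 || relB z.2 z.1.2) :=
    FP.or (fp_relB (FP.comp FP.snd FP.fst) FP.snd) (fp_relB FP.snd (FP.comp FP.snd FP.fst))
  exact FP.del ((FP.ite h1 (FP.const [Sym.i]) (FP.const [Sym.o])).congr (fun x => by
    cases (relB x.1.2 x.2 || relB x.2 x.1.2) <;> rfl))

theorem outG_eq (inst : List (Trip (NV Name))) :
    outG (vertsD inst) = (encodeGraph (graphD inst)).map bs := by
  classical
  unfold encodeGraph outG
  rw [bitEncode_list]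
  have hlt : ∀ p ∈ vertsD inst, p.1 = 0 → p.2.1 < 5 := by
    intro p hp h0
    obtain ⟨j, c, hj, h⟩ := mem_vertsD.1 hp
    rcases h with ⟨k, t, ht, rfl⟩ | ⟨a, ha, rfl⟩
    · exact ht
    · simp at h0
  have h1 : (List.ofFn fun i => (List.ofFn fun j => decide ((graphD inst).Adj i j))) =
      (vertsD inst).map (fun p => (vertsD inst).map (fun q => (relB p q || relB q p))) := by
    apply List.ext_getElem
    · simp
    · intro i hi hi'
      simp only [List.getElem_ofFn, List.getElem_map]
      apply List.ext_getElem
      · simp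
      · intro j hj hj'
        simp only [List.getElem_ofFn, List.getElem_map]
        rw [Bool.eq_iff_iff, decide_eq_true_eq, Bool.or_eq_true,
          relB_iff (hlt _ (List.getElem_mem _)), relB_iff (hlt _ (List.getElem_mem _))]
        rfl
  rw [h1, List.flatMap_map]
  congr 1
  funext p
  rw [bitEncode_list, List.flatMap_map]
  rfl

theorem hard : ∀ L ∈ N68a2faeb.NP, N793a5b8e.ManyOneReducible L circLT3 := by
  intro L hL
  obtain ⟨g, hg, hLg⟩ := cook_levin hL
  refine ⟨fun x => encodeGraph (graphD (nae (g ((bitEncode x).map bs)))), ?_, fun x => ?_⟩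
  · exact isPolyTime_of_fp (g := fun s => outG (vertsD (nae (g s))))
      (FP.comp fp_outG (fp_vertsD (fp_nae hg))) (fun x => outG_eq _)
  · rw [Bool.eq_iff_iff, circLT3_encode, hLg, ← nae_iff]
    constructor
    · intro h
      have := completeD _ h
      linarith
    · exact soundD _

/-! ### Membership in NP -/

theorem compress_aux {p q a b : ℕ} (ha : a < p) (hpq : p < 3 * q)
    (h1 : b + q ≤ a) (h2 : a + q ≤ p + b) :
    (a / q = b / q + 1 ∧ b % q ≤ a % q) ∨ (a / q = b / q + 2 ∧ a % q < b % q) := by
  have hq : 0 < q := by omega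
  have e1 := Nat.div_add_mod a q
  have e2 := Nat.div_add_mod b q
  have m1 := Nat.mod_lt a hq
  have m2 := Nat.mod_lt b hq
  have k1 : a / q < 3 := by
    rw [Nat.div_lt_iff_lt_mul hq]; omega
  have k2 : b / q < 3 := by
    rw [Nat.div_lt_iff_lt_mul hq]; omega
  generalize a / q = ka at *
  generalize b / q = kb at *
  generalize a % q = ra at *
  generalize b % q = rb at *
  interval_cases ka <;> interval_cases kb <;> omega

/-- A graph on `n` vertices whose circular chromatic number is less than `3` has a
`(3 n + 2, n + 1)`-colouring. -/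
theorem compress {V : Type} [Fintype V] {G : SimpleGraph V} {p q : ℕ}
    (hpq : p < 3 * q) {c : V → Fin p} (hc : IsCircColouring G p q c) :
    ∃ c' : V → Fin (3 * Fintype.card V + 2),
      IsCircColouring G (3 * Fintype.card V + 2) (Fintype.card V + 1) c' := by
  classical
  let n := Fintype.card V
  let rho : V → ℕ := fun v => (Finset.univ.filter (fun u => (c u).val % q < (c v).val % q)).card
  have hrho : ∀ v, rho v < n := by
    intro v
    apply Finset.card_lt_univ_of_notMem (x := v)
    simp
  have hmono : ∀ u v, (c u).val % q ≤ (c v).val % q → rho u ≤ rho v := by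
    intro u v h
    apply Finset.card_le_card
    intro w hw
    simp only [Finset.mem_filter, Finset.mem_univ, true_and] at hw ⊢
    omega
  have hstrict : ∀ u v, (c u).val % q < (c v).val % q → rho u < rho v := by
    intro u v h
    apply Finset.card_lt_card
    refine ⟨fun w hw => ?_, fun hsub => ?_⟩
    · simp only [Finset.mem_filter, Finset.mem_univ, true_and] at hw ⊢
      omega
    · have := hsub (show u ∈ Finset.univ.filter (fun w => (c w).val % q < (c v).val % q) by
        simpa using h)
      simp at this
  have hk : ∀ v, (c v).val / q ≤ 2 := by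
    intro v
    have h1 := (c v).2
    have hq : 0 < q := by omega
    have : (c v).val / q < 3 := by
      rw [Nat.div_lt_iff_lt_mul hq]; omega
    omega
  have hval : ∀ v, (n + 1) * ((c v).val / q) + rho v < 3 * n + 2 := by
    intro v
    have h1 := hk v
    have h2 := hrho v
    have h3 : (n + 1) * ((c v).val / q) ≤ (n + 1) * 2 := Nat.mul_le_mul_left _ h1
    omega
  refine ⟨fun v => ⟨(n + 1) * ((c v).val / q) + rho v, hval v⟩, ?_⟩
  have main : ∀ u v, (c v).val + q ≤ (c u).val → (c u).val + q ≤ p + (c v).val →
      (n + 1) * ((c v).val / q) + rho v + (n + 1) ≤ (n + 1) * ((c u).val / q) + rho u ∧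
      (n + 1) * ((c u).val / q) + rho u ≤ (n + 1) * ((c v).val / q) + rho v + (2 * n + 1) := by
    intro u v h1 h2
    have hu := hrho u
    have hv := hrho v
    rcases compress_aux (c u).2 hpq h1 h2 with ⟨h3, h4⟩ | ⟨h3, h4⟩
    · have h5 := hmono v u h4
      rw [h3, Nat.mul_add]
      omega
    · have h5 := hstrict u v h4
      rw [h3, Nat.mul_add]
      omega
  intro u v huv
  obtain ⟨h1, h2⟩ := hc u v huv
  change ((n + 1 : ℕ) : ℤ) ≤ |(((n + 1) * ((c u).val / q) + rho u : ℕ) : ℤ) -
    (((n + 1) * ((c v).val / q) + rho v : ℕ) : ℤ)| ∧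
    |(((n + 1) * ((c u).val / q) + rho u : ℕ) : ℤ) -
    (((n + 1) * ((c v).val / q) + rho v : ℕ) : ℤ)| ≤ ((3 * n + 2 : ℕ) : ℤ) - ((n + 1 : ℕ) : ℤ)
  rcases le_total (c v).val (c u).val with h | h
  · rw [abs_of_nonneg (by omega)] at h1 h2
    have h3 := main u v (by omega) (by omega)
    obtain ⟨h4, h5⟩ := h3
    rw [abs_of_nonneg (by omega)]
    omega
  · rw [abs_of_nonpos (by omega)] at h1 h2
    have h3 := main v u (by omega) (by omega)
    obtain ⟨h4, h5⟩ := h3
    rw [abs_of_nonpos (by omega)]
    omega

/-- the colour of a vertex in the certificate -/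
noncomputable def cert (w : List Sym) (v : ℕ) : ℕ := ((splitB w)[v]?.getD []).length

/-- the colours are admissible for an edge -/
def okCol (n a b : ℕ) : Bool :=
  (decide (b + (n + 1) ≤ a) && decide (a ≤ b + (2 * n + 1))) ||
    (decide (a + (n + 1) ≤ b) && decide (b ≤ a + (2 * n + 1)))

/-- the certificate is a colouring -/
noncomputable def check (s w : List Sym) : Bool :=
  (List.range (rows s)).all (fun i => decide (cert w i < 3 * rows s + 2) &&
    (List.range (rows s)).all (fun j => !(ent s i j) || okCol (rows s) (cert w i) (cert w j)))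

/-- the verifier -/
noncomputable def ver (z : List Bool × List Bool) : Bool :=
  valid (z.1.map bs) && check (z.1.map bs) (z.2.map bs)

open Classical in
/-- the adjacency of a graph on `Fin n` as a function of two numbers -/
noncomputable def adjN {n : ℕ} (G : SimpleGraph (Fin n)) (i j : ℕ) : Bool :=
  decide (∃ (hi : i < n) (hj : j < n), G.Adj ⟨i, hi⟩ ⟨j, hj⟩)

theorem encodeGraph_map {n : ℕ} (G : SimpleGraph (Fin n)) :
    (encodeGraph G).map bs = matS n (adjN G) := by
  classical
  unfold encodeGraph matS
  rw [bitEncode_list]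
  have h1 : (List.ofFn fun i => (List.ofFn fun j => decide (G.Adj i j))) =
      (List.range n).map (fun i => (List.range n).map (fun j => adjN G i j)) := by
    apply List.ext_getElem
    · simp
    · intro i hi hi'
      simp only [List.getElem_ofFn, List.getElem_map, List.getElem_range]
      apply List.ext_getElem
      · simp
      · intro j hj hj'
        simp only [List.getElem_ofFn, List.getElem_map, List.getElem_range]
        rw [List.length_ofFn] at hi hj
        rw [Bool.eq_iff_iff]
        unfold adjN
        rw [decide_eq_true_eq, decide_eq_true_eq]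
        exact ⟨fun h => ⟨hi, hj, h⟩, fun ⟨_, _, h⟩ => h⟩
  rw [h1, List.flatMap_map]
  congr 1
  funext p
  rw [bitEncode_list, List.flatMap_map]
  rfl

theorem all_range {n : ℕ} {p : ℕ → Bool} : (List.range n).all p = true ↔ ∀ i < n, p i = true := by
  simp [List.all_eq_true]

theorem matS_congr {n : ℕ} {M M' : ℕ → ℕ → Bool} (h : ∀ i < n, ∀ j < n, M i j = M' i j) :
    matS n M = matS n M' := by
  unfold matS
  apply List.flatMap_congr
  intro i hi
  congr 1
  apply List.flatMap_congr
  intro j hj
  rw [h i (List.mem_range.1 hi) j (List.mem_range.1 hj)]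

theorem valid_encode {n : ℕ} (G : SimpleGraph (Fin n)) : valid ((encodeGraph G).map bs) = true := by
  classical
  rw [encodeGraph_map]
  unfold valid
  rw [rows_matS, Bool.and_eq_true, decide_eq_true_eq, all_range]
  refine ⟨(matS_congr (fun i hi j hj => (ent_matS hi hj).symm)), fun i hi => ?_⟩
  rw [all_range]
  intro j hj
  rw [ent_matS hi hj, ent_matS hj hi, ent_matS hi hi]
  have h1 : adjN G i j = adjN G j i := by
    rw [Bool.eq_iff_iff]
    unfold adjN
    rw [decide_eq_true_eq, decide_eq_true_eq]
    exact ⟨fun ⟨a, b, h⟩ => ⟨b, a, h.symm⟩, fun ⟨a, b, h⟩ => ⟨b, a, h.symm⟩⟩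
  have h2 : adjN G i i = false := by
    unfold adjN
    rw [decide_eq_false_iff_not]
    rintro ⟨a, b, h⟩
    exact h.ne rfl
  rw [h1, h2]
  simp

theorem exists_graph {x : List Bool} (h : valid (x.map bs) = true) :
    ∃ G : SimpleGraph (Fin (rows (x.map bs))), x = encodeGraph G ∧
      ∀ i j, (G.Adj i j ↔ ent (x.map bs) i.val j.val = true) := by
  classical
  unfold valid at h
  rw [Bool.and_eq_true, decide_eq_true_eq, all_range] at h
  obtain ⟨h1, h2⟩ := h
  have h3 : ∀ i < rows (x.map bs), ∀ j < rows (x.map bs),
      ent (x.map bs) i j = ent (x.map bs) j i ∧ ent (x.map bs) i i = false := by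
    intro i hi j hj
    have h4 := h2 i hi
    rw [all_range] at h4
    have h5 := h4 j hj
    revert h5
    generalize ent (x.map bs) i j = a
    generalize ent (x.map bs) j i = b
    generalize ent (x.map bs) i i = c
    cases a <;> cases b <;> cases c <;> simp
  obtain ⟨G, hG⟩ : ∃ G : SimpleGraph (Fin (rows (x.map bs))), ∀ i j,
      (G.Adj i j ↔ ent (x.map bs) i.val j.val = true) :=
    ⟨{ Adj := fun i j => ent (x.map bs) i.val j.val = true
       symm := ⟨fun i j h => by rw [(h3 j.1 j.2 i.1 i.2).1]; exact h⟩
       loopless := ⟨fun i h => by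
        rw [(h3 i.1 i.2 i.1 i.2).2] at h
        exact absurd h (by simp)⟩ }, fun i j => Iff.rfl⟩
  refine ⟨G, ?_, hG⟩
  apply List.map_injective_iff.2 bs_injective
  refine h1.trans ?_
  rw [encodeGraph_map]
  apply matS_congr
  intro i hi j hj
  unfold adjN
  rw [Bool.eq_iff_iff, decide_eq_true_eq]
  exact ⟨fun h => ⟨hi, hj, (hG _ _).2 h⟩, fun ⟨_, _, h⟩ => (hG _ _).1 h⟩

theorem okCol_iff {n a b : ℕ} : okCol n a b = true ↔
    ((n + 1 : ℕ) : ℤ) ≤ |(a : ℤ) - (b : ℤ)| ∧
      |(a : ℤ) - (b : ℤ)| ≤ ((3 * n + 2 : ℕ) : ℤ) - ((n + 1 : ℕ) : ℤ) := by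
  unfold okCol
  simp only [Bool.or_eq_true, Bool.and_eq_true, decide_eq_true_eq]
  rcases le_total b a with h | h
  · rw [abs_of_nonneg (by omega)]; omega
  · rw [abs_of_nonpos (by omega)]; omega

theorem lt_three_iff {n : ℕ} (G : SimpleGraph (Fin n)) : circChromatic G < 3 ↔
    ∃ w : List Bool, w.length ≤ n * (6 * n + 3) ∧ ∀ i j : Fin n,
      cert (w.map bs) i.val < 3 * n + 2 ∧
      (G.Adj i j → okCol n (cert (w.map bs) i.val) (cert (w.map bs) j.val) = true) := by
  constructor
  · intro h
    obtain ⟨p, q, hq, -, hpq, c, hc⟩ := circ_lt_three _ h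
    have hcomp := compress hpq hc
    rw [Fintype.card_fin] at hcomp
    obtain ⟨c', hc'⟩ := hcomp
    have hsplit : splitB (((List.ofFn (fun i => c' i)).flatMap (fun k =>
        delimit (List.replicate k.val true))).map bs) =
        List.ofFn (fun i => List.replicate (c' i).val Sym.i) := by
      rw [List.map_flatMap]
      have : (fun k : Fin (3 * n + 2) => (delimit (List.replicate k.val true)).map bs) =
          fun k => del (List.replicate k.val Sym.i) := by
        funext k
        rw [map_delimit, List.map_replicate]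
        rfl
      rw [this, ← List.flatMap_map (f := fun k : Fin (3 * n + 2) => List.replicate k.val Sym.i)
        (g := del), splitB_flatMap, List.map_ofFn]
      rfl
    have hcert : ∀ i : Fin n, cert (((List.ofFn (fun i => c' i)).flatMap (fun k =>
        delimit (List.replicate k.val true))).map bs) i.val = (c' i).val := by
      intro i
      unfold cert
      rw [hsplit, List.getElem?_ofFn]
      simp
    refine ⟨(List.ofFn (fun i => c' i)).flatMap (fun k => delimit (List.replicate k.val true)),
      ?_, ?_⟩
    · rw [List.length_flatMap]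
      have h1 : ∀ (l : List (Fin (3 * n + 2))),
          (l.map (fun k => (delimit (List.replicate k.val true)).length)).sum ≤
            l.length * (6 * n + 3) := by
        intro l
        induction l with
        | nil => simp
        | cons k l ih =>
          rw [List.map_cons, List.sum_cons, List.length_cons]
          have e : (l.length + 1) * (6 * n + 3) = l.length * (6 * n + 3) + (6 * n + 3) :=
            Nat.succ_mul _ _
          have : (delimit (List.replicate k.val true)).length = 2 * k.val + 1 := by
            rw [length_delimit, List.length_replicate]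
          have hk := k.2
          omega
      refine (h1 _).trans ?_
      rw [List.length_ofFn]
    · intro i j
      rw [hcert, hcert]
      exact ⟨(c' i).2, fun hij => okCol_iff.2 (hc' i j hij)⟩
  · rintro ⟨w, -, hw⟩
    have h1 := circ_le_of G (p := 3 * n + 2) (q := n + 1) (by omega) (by omega)
      (fun i => ⟨cert (w.map bs) i.val, (hw i i).1⟩) (fun u v huv => okCol_iff.1 ((hw u v).2 huv))
    refine lt_of_le_of_lt h1 ?_
    rw [div_lt_iff₀ (by positivity)]
    push_cast
    linarith

theorem length_matS (n : ℕ) (M : ℕ → ℕ → Bool) : n ≤ (matS n M).length := by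
  unfold matS
  rw [List.length_flatMap]
  have : ∀ l : List ℕ, l.length ≤ (l.map (fun i =>
      (del ((List.range n).flatMap (fun j => del [bs (M i j)]))).length)).sum := by
    intro l
    induction l with
    | nil => simp
    | cons k l ih =>
      rw [List.map_cons, List.sum_cons, List.length_cons]
      have : 1 ≤ (del ((List.range n).flatMap (fun j => del [bs (M k j)]))).length := by
        unfold del
        rw [List.length_append]
        simp
      omega
  have h := this (List.range n)
  rwa [List.length_range] at h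

theorem ver_iff (x : List Bool) : circLT3 x = true ↔
    ∃ w : List Bool, w.length ≤ x.length * (6 * x.length + 3) ∧ ver (x, w) = true := by
  classical
  constructor
  · intro h
    unfold circLT3 at h
    rw [decide_eq_true_eq] at h
    obtain ⟨n, G, rfl, h⟩ := h
    obtain ⟨w, hw, hw'⟩ := (lt_three_iff G).1 h
    have hn : n ≤ (encodeGraph G).length := by
      have := length_matS n (adjN G)
      rw [← encodeGraph_map, List.length_map] at this
      exact this
    refine ⟨w, hw.trans ?_, ?_⟩
    · exact Nat.mul_le_mul hn (by omega)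
    · unfold ver check
      simp only [valid_encode, Bool.true_and]
      rw [encodeGraph_map, rows_matS, all_range]
      intro i hi
      rw [Bool.and_eq_true, decide_eq_true_eq, all_range]
      refine ⟨(hw' ⟨i, hi⟩ ⟨i, hi⟩).1, fun j hj => ?_⟩
      rw [ent_matS hi hj]
      by_cases hij : G.Adj ⟨i, hi⟩ ⟨j, hj⟩
      · rw [(hw' ⟨i, hi⟩ ⟨j, hj⟩).2 hij]
        simp
      · have : adjN G i j = false := by
          unfold adjN
          rw [decide_eq_false_iff_not]
          rintro ⟨_, _, h⟩
          exact hij h
        rw [this]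
        simp
  · rintro ⟨w, -, hw⟩
    unfold ver at hw
    rw [Bool.and_eq_true] at hw
    obtain ⟨h1, h2⟩ := hw
    obtain ⟨G, hxG, hG⟩ := exists_graph h1
    have h3 : circChromatic G < 3 := by
      unfold check at h2
      rw [all_range] at h2
      have h4 : ∀ i j : Fin (rows (x.map bs)), cert (w.map bs) i.val < 3 * rows (x.map bs) + 2 ∧
          (G.Adj i j → okCol (rows (x.map bs)) (cert (w.map bs) i.val)
            (cert (w.map bs) j.val) = true) := by
        intro i j
        have h5 := h2 i.1 i.2
        rw [Bool.and_eq_true, decide_eq_true_eq, all_range] at h5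
        refine ⟨h5.1, fun hij => ?_⟩
        have h6 := h5.2 j.1 j.2
        rw [(hG i j).1 hij] at h6
        simpa using h6
      have h5 := circ_le_of G (p := 3 * rows (x.map bs) + 2) (q := rows (x.map bs) + 1) (by omega)
        (by omega) (fun i => ⟨cert (w.map bs) i.val, (h4 i i).1⟩)
        (fun u v huv => okCol_iff.1 ((h4 u v).2 huv))
      refine lt_of_le_of_lt h5 ?_
      rw [div_lt_iff₀ (by positivity)]
      push_cast
      linarith
    change x = encodeGraph G at hxG
    rw [hxG]
    exact (circLT3_encode G).2 h3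

/-! ### The verifier runs in polynomial time -/

variable {E F : Type} [Rep E] [Rep F]

theorem fp_cert {w : E → List Sym} (hw : FP w) {i : E → ℕ} (hi : FP i) :
    FP (fun x => cert (w x) (i x)) :=
  FP.length (FP.getE (FP.splitB hw) hi [])

theorem fp_okCol {n a b : E → ℕ} (hn : FP n) (ha : FP a) (hb : FP b) :
    FP (fun x => okCol (n x) (a x) (b x)) := by
  unfold okCol
  have h1 := FP.add hn (FP.const 1)
  have h2 := FP.add (FP.mulConst hn 2) (FP.const 1)
  exact FP.or (FP.and (FP.natLe (FP.add hb h1) ha) (FP.natLe ha (FP.add hb h2)))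
    (FP.and (FP.natLe (FP.add ha h1) hb) (FP.natLe hb (FP.add ha h2)))

theorem fp_check {s w : E → List Sym} (hs : FP s) (hw : FP w) :
    FP (fun x => check (s x) (w x)) := by
  unfold check
  refine fp_allE (FP.range (fp_rows hs)) (p := fun y : E × ℕ =>
    decide (cert (w y.1) y.2 < 3 * rows (s y.1) + 2) &&
    (List.range (rows (s y.1))).all (fun j => !(ent (s y.1) y.2 j) ||
      okCol (rows (s y.1)) (cert (w y.1) y.2) (cert (w y.1) j))) ?_
  have h0 := FP.comp hs (FP.fst (E := E) (F := ℕ))
  have h0' := FP.comp hw (FP.fst (E := E) (F := ℕ))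
  refine FP.and (FP.natLt (fp_cert h0' FP.snd) (FP.add (FP.mulConst (fp_rows h0) 3)
    (FP.const 2))) ?_
  refine fp_allE (FP.range (fp_rows h0)) (p := fun z : (E × ℕ) × ℕ =>
    !(ent (s z.1.1) z.1.2 z.2) ||
      okCol (rows (s z.1.1)) (cert (w z.1.1) z.1.2) (cert (w z.1.1) z.2)) ?_
  have h1 : FP (fun z : (E × ℕ) × ℕ => s z.1.1) := FP.comp hs (FP.comp FP.fst FP.fst)
  have h1' : FP (fun z : (E × ℕ) × ℕ => w z.1.1) := FP.comp hw (FP.comp FP.fst FP.fst)
  have h2 : FP (fun z : (E × ℕ) × ℕ => z.1.2) := FP.comp FP.snd FP.fst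
  have h3 : FP (fun z : (E × ℕ) × ℕ => z.2) := FP.snd
  exact FP.or (FP.not (fp_ent h1 h2 h3)) (fp_okCol (fp_rows h1) (fp_cert h1' h2) (fp_cert h1' h3))

theorem splitB_pair (x w : List Bool) : splitB ((bitEncode (x, w)).map bs) =
    (bitEncode x).map bs :: w.map (fun b => [bs b]) := by
  rw [bitEncode_prod]
  have : del ((bitEncode (x, w).1).map bs) ++ (bitEncode (x, w).2).map bs =
      ((bitEncode x).map bs :: w.map (fun b => [bs b])).flatMap del := by
    rw [List.flatMap_cons, List.flatMap_map, bitEncode_list (x, w).2]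
    rfl
  rw [this, splitB_flatMap]

theorem splitB_bits (x : List Bool) : splitB ((bitEncode x).map bs) = x.map (fun b => [bs b]) := by
  rw [bitEncode_list]
  have : x.flatMap (fun a => del ((bitEncode a).map bs)) =
      (x.map (fun b => [bs b])).flatMap del := by
    rw [List.flatMap_map]
    rfl
  rw [this, splitB_flatMap]

theorem flatMap_id_single (x : List Bool) :
    (x.map (fun b => [bs b])).flatMap (fun s => s) = x.map bs := by
  rw [List.flatMap_map]
  exact flatMap_single _ _

theorem isPolyTime_ver : N68a2faeb.IsPolyTime ver := by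
  have hp : FP (fun z : List Sym => (splitB ((splitB z)[0]?.getD [])).flatMap (fun s => s)) :=
    FP.flatMapS (FP.splitB (FP.getE (FP.splitB FP.id) (FP.const 0) []))
      (g := fun y : List Sym × List Sym => y.2) FP.snd
  have hw : FP (fun z : List Sym => ((splitB z).tail).flatMap (fun s => s)) :=
    FP.flatMapS (FP.tailE (FP.splitB FP.id)) (g := fun y : List Sym × List Sym => y.2) FP.snd
  refine FP.toTM2 (αΓ := Bool) (βΓ := Bool) bs sb bs sb_bs
    (fp_bs (FP.and (fp_valid hp) (fp_check hp hw))) (fun z => ?_)
  obtain ⟨x, w⟩ := z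
  change [bs (valid ((splitB ((splitB ((bitEncode (x, w)).map bs))[0]?.getD [])).flatMap
    (fun s => s)) && check ((splitB ((splitB ((bitEncode (x, w)).map bs))[0]?.getD [])).flatMap
    (fun s => s)) (((splitB ((bitEncode (x, w)).map bs)).tail).flatMap (fun s => s)))] =
    [bs (ver (x, w))]
  rw [splitB_pair]
  simp only [List.getElem?_cons_zero, Option.getD_some, List.tail_cons]
  rw [splitB_bits, flatMap_id_single, flatMap_id_single]
  rfl

theorem circLT3_mem_NP : circLT3 ∈ N68a2faeb.NP := by
  refine ⟨Polynomial.X * (6 * Polynomial.X + 3), ver, isPolyTime_ver, fun x => ?_⟩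
  have := ver_iff x
  simpa using this

/-- CIRC<3 is NP-complete. -/
theorem circLT3_complete : N793a5b8e.IsCompleteFor N68a2faeb.NP circLT3 :=
  ⟨circLT3_mem_NP, hard⟩

end Pool.Agent.Lib_MP_8cd8c6_lc
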