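import Pool.Agent.Lib_MP_8cd8c6_lc.Complete

/-!
# The reduction graph is 3-colourable, with a 3-colouring computable in polynomial time
-/

namespace Pool.Agent.Lib_MP_8cd8c6_lc

open Pool.Agent.PartSep Pool.Agent.PartSep.TM Pool.Agent.PartSep.CL
open Pool.Agent.PartSep.TM.Rep N487b59b3

set_option synthInstance.maxSize 2000

/-- The 3-colouring of a variable cycle. -/
def p3 (t : Fin 5) : Fin 3 := ![0, 1, 2, 0, 1] t

/-- The 3-colouring of the clause gadget, by the signs of the three literals. -/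
def c3 (x y z : Bool) : Fin 10 → Fin 3 :=
  match x, y, z with
  | false, false, false => ![0, 1, 2, 0, 1, 2, 0, 1, 2, 1]
  | false, false, true => ![0, 1, 2, 0, 1, 2, 0, 2, 1, 1]
  | false, true, false => ![0, 1, 2, 0, 1, 0, 2, 0, 1, 1]
  | false, true, true => ![0, 1, 2, 0, 2, 1, 0, 2, 1, 1]
  | true, false, false => ![0, 1, 0, 2, 0, 1, 0, 1, 2, 1]
  | true, false, true => ![0, 1, 0, 2, 0, 1, 0, 2, 1, 1]
  | true, true, false => ![0, 1, 0, 2, 1, 0, 2, 0, 1, 1]
  | true, true, true => ![0, 2, 1, 0, 2, 1, 0, 2, 1, 1]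

set_option maxRecDepth 20000 in
theorem c3_edges : ∀ (x y z : Bool), ∀ e ∈ gadgetEdges, c3 x y z e.1 ≠ c3 x y z e.2 := by
  decide

/-- the number of the vertex of the variable cycle matched with `t`, by the sign -/
def sg (s : Bool) (t : ZMod 5) : Fin 5 := if s then (-t : ZMod 5) else t

set_option maxRecDepth 20000 in
theorem c3_match : ∀ (x y z : Bool) (t : ZMod 5),
    p3 (sg x t) ≠ c3 x y z (face 0 t) ∧ p3 (sg y t) ≠ c3 x y z (face 1 t) ∧
      p3 (sg z t) ≠ c3 x y z (face 2 t) := by decide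

section
variable {ν : Type} [Inhabited ν]

/-- the vertex described by `p` has the colour `i` -/
noncomputable def isC (i : Fin 3) (p : Desc ν) : Bool :=
  (decide (p.1 = 0) && (Finset.univ : Finset (Fin 5)).toList.any
    (fun t => decide (p3 t = i) && decide (p.2.1 = t.val))) ||
  (!decide (p.1 = 0) && (Finset.univ : Finset (Bool × Bool × Bool × Fin 10)).toList.any
    (fun u => decide (c3 u.1 u.2.1 u.2.2.1 u.2.2.2 = i) && (decide (p.2.1 = u.2.2.2.val) &&
      (decide (p.2.2.1.2 = u.1) && (decide (p.2.2.2.1.2 = u.2.1) &&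
        decide (p.2.2.2.2.2 = u.2.2.1))))))

/-- the colour of the vertex described by `p` -/
noncomputable def col3 (p : Desc ν) : Fin 3 := if isC 1 p then 1 else if isC 2 p then 2 else 0

omit [Inhabited ν] in
theorem col3_of {p : Desc ν} {j : Fin 3} (h : ∀ i, isC i p = true ↔ j = i) : col3 p = j := by
  unfold col3
  by_cases h1 : isC 1 p = true
  · rw [if_pos h1, ← (h 1).1 h1]
  · rw [if_neg h1]
    by_cases h2 : isC 2 p = true
    · rw [if_pos h2, ← (h 2).1 h2]
    · rw [if_neg h2]
      rw [h] at h1 h2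
      clear h
      revert h1 h2
      revert j
      decide

theorem col3_vd (v : ν) {t : ℕ} (ht : t < 5) : col3 (vd v t) = p3 ⟨t, ht⟩ := by
  refine col3_of (fun i => ?_)
  simp only [isC, vd, decide_true, Bool.true_and, Bool.not_true, Bool.false_and, Bool.or_false,
    List.any_eq_true, Finset.mem_toList, Finset.mem_univ, true_and, Bool.and_eq_true,
    decide_eq_true_eq]
  constructor
  · rintro ⟨s, h1, h2⟩
    rw [← h1]
    congr 1
    exact Fin.ext h2
  · intro h
    exact ⟨⟨t, ht⟩, h, rfl⟩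

omit [Inhabited ν] in
theorem col3_gadget (j : ℕ) {a : ℕ} (ha : a < 10) (c : Trip ν) :
    col3 ((j + 1, a, c) : Desc ν) = c3 c.1.2 c.2.1.2 c.2.2.2 ⟨a, ha⟩ := by
  refine col3_of (fun i => ?_)
  simp only [isC, Nat.add_eq_zero_iff, one_ne_zero, and_false, decide_false, Bool.false_and,
    Bool.not_false, Bool.true_and, Bool.false_or,
    List.any_eq_true, Finset.mem_toList, Finset.mem_univ, true_and, Bool.and_eq_true,
    decide_eq_true_eq, Prod.exists]
  constructor
  · rintro ⟨x, y, z, b, h1, h2, h3, h4, h5⟩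
    rw [← h1, h3, h4, h5]
    congr 1
    exact Fin.ext h2
  · intro h
    exact ⟨_, _, _, ⟨a, ha⟩, h, rfl, rfl, rfl, rfl⟩

theorem col3_rel {inst : List (Trip ν)} {p q : Desc ν} (hp : p ∈ vertsD inst)
    (hq : q ∈ vertsD inst) (h : relD p q) : col3 p ≠ col3 q := by
  obtain ⟨j, c, hj, hp⟩ := mem_vertsD.1 hp
  obtain ⟨j', c', hj', hq⟩ := mem_vertsD.1 hq
  rcases hp with ⟨k, t, ht, rfl⟩ | ⟨b, hb, rfl⟩ <;>
    rcases hq with ⟨k', t', ht', rfl⟩ | ⟨b', hb', rfl⟩
  · rcases h with ⟨-, -, h1, h2⟩ | ⟨h1, -⟩ | ⟨-, h1, -⟩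
    · simp only [vd] at h1 h2
      rw [col3_vd _ ht, col3_vd _ ht']
      have key : ∀ t t' : Fin 5, t'.val = (t.val + 1) % 5 → p3 t ≠ p3 t' := by decide
      exact key ⟨t, ht⟩ ⟨t', ht'⟩ h2
    · exact absurd rfl h1
    · exact absurd rfl h1
  · rcases h with ⟨-, h1, -⟩ | ⟨h1, -⟩ | ⟨-, -, k'', t'', h1, h2, h3⟩
    · simp at h1
    · exact absurd rfl h1
    · simp only [vd] at h1 h2 h3
      rw [col3_vd _ ht, col3_gadget _ hb']
      have e1 : (⟨b', hb'⟩ : Fin 10) = face k'' t'' := Fin.ext h2
      have e2 : (⟨t, ht⟩ : Fin 5) = sg (lit3 c' k'').2 t'' := by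
        apply Fin.ext
        change t = _
        rw [h3]
        unfold sg
        split_ifs <;> rfl
      rw [e1, e2]
      have h4 := c3_match c'.1.2 c'.2.1.2 c'.2.2.2 t''
      match k'' with
      | 0 => exact h4.1
      | 1 => exact h4.2.1
      | 2 => exact h4.2.2
  · rcases h with ⟨h1, -⟩ | ⟨-, h1, -⟩ | ⟨h1, -⟩
    · simp at h1
    · simp [vd] at h1
    · simp at h1
  · rcases h with ⟨h1, -⟩ | ⟨-, h1, h2⟩ | ⟨h1, -⟩
    · simp at h1
    · simp only [Nat.add_right_cancel_iff] at h1
      subst h1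
      rw [hj'] at hj
      obtain rfl := Option.some.inj hj
      rw [col3_gadget _ hb, col3_gadget _ hb']
      have key : ∀ b b' : Fin 10, ((b.val < 9 ∧ b'.val = (b.val + 1) % 9) ∨
          (b.val = 9 ∧ (b'.val = 0 ∨ b'.val = 3 ∨ b'.val = 6))) → (b, b') ∈ gadgetEdges := by
        decide
      exact c3_edges _ _ _ _ (key ⟨b, hb⟩ ⟨b', hb'⟩ h2)
    · simp at h1

/-- the 3-colouring of the reduction graph -/
noncomputable def colG (inst : List (Trip ν)) (i : Fin (vertsD inst).length) : Fin 3 :=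
  col3 ((vertsD inst).get i)

theorem colG_proper (inst : List (Trip ν)) {u v : Fin (vertsD inst).length}
    (h : (graphD inst).Adj u v) : colG inst u ≠ colG inst v := by
  rcases h with h | h
  · exact col3_rel (List.get_mem _ _) (List.get_mem _ _) h
  · exact (col3_rel (List.get_mem _ _) (List.get_mem _ _) h).symm

theorem graphD_not_two {inst : List (Trip ν)} (h : inst ≠ []) : ¬ (graphD inst).Colorable 2 := by
  rintro ⟨C⟩
  obtain ⟨c, hc⟩ := List.exists_mem_of_ne_nil _ h
  obtain ⟨j, hj⟩ := List.mem_iff_getElem?.1 hc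
  have hm : ∀ t < 5, vd c.1.1 t ∈ vertsD inst := fun t ht =>
    mem_vertsD.2 ⟨j, c, hj, Or.inl ⟨0, t, ht, rfl⟩⟩
  choose f hf using fun t : Fin 5 => exists_idx (hm t.val t.2)
  have hadj : ∀ t t' : Fin 5, t'.val = (t.val + 1) % 5 → (graphD inst).Adj (f t) (f t') := by
    intro t t' htt
    left
    rw [hf, hf]
    exact Or.inl ⟨rfl, rfl, rfl, htt⟩
  have h0 := C.valid (hadj 0 1 rfl)
  have h1 := C.valid (hadj 1 2 rfl)
  have h2 := C.valid (hadj 2 3 rfl)
  have h3 := C.valid (hadj 3 4 rfl)
  have h4 := C.valid (hadj 4 0 rfl)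
  revert h0 h1 h2 h3 h4
  generalize C (f 0) = a0
  generalize C (f 1) = a1
  generalize C (f 2) = a2
  generalize C (f 3) = a3
  generalize C (f 4) = a4
  revert a0 a1 a2 a3 a4
  decide

theorem graphD_chromatic {inst : List (Trip ν)} (h : inst ≠ []) :
    (graphD inst).chromaticNumber = 3 := by
  have := (SimpleGraph.chromaticNumber_eq_iff_colorable_not_colorable (G := graphD inst)
    (n := 2)).2 ⟨⟨SimpleGraph.Coloring.mk (colG inst) (fun h => colG_proper inst h)⟩,
      graphD_not_two h⟩
  rw [this]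
  rfl

theorem graphD_le_three (inst : List (Trip ν)) : circChromatic (graphD inst) ≤ 3 := by
  have := circ_le_of (graphD inst) (p := 3) (q := 1) (by norm_num) (by norm_num) (colG inst) (by
    intro u v huv
    have h := colG_proper inst huv
    revert h
    generalize colG inst u = a
    generalize colG inst v = b
    revert a b
    decide)
  norm_num at this
  exact this

/-- the clause which is always satisfied -/
def trivC : Trip ν := ((default, true), (default, true), (default, false))

theorem nsat_append (inst : List (Trip ν)) : NSat (inst ++ [trivC]) ↔ NSat inst := by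
  constructor
  · rintro ⟨a, ha⟩
    exact ⟨a, fun c hc => ha c (List.mem_append_left _ hc)⟩
  · rintro ⟨a, ha⟩
    refine ⟨a, fun c hc => ?_⟩
    rcases List.mem_append.1 hc with hc | hc
    · exact ha c hc
    · rw [List.mem_singleton] at hc
      subst hc
      right; left
      simp [lv, trivC]

end

/-- The code of a 3-colouring of a graph on the vertices `0, …, n - 1`: the code of the list of
colours (natural numbers `0`, `1`, `2`). -/
def encodeColouring {n : ℕ} (c : Fin n → Fin 3) : List Bool :=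
  bitEncode (List.ofFn fun i => ((c i : Fin 3) : ℕ))

variable {E F : Type} [Rep E] [Rep F]

theorem fp_isC (i : Fin 3) {p : E → Desc (NV Name)} (hp : FP p) : FP (fun x => isC i (p x)) := by
  unfold isC
  have p1 := FP.comp FP.fst hp
  have p2 := FP.comp FP.snd hp
  have p3 := FP.comp FP.fst p2
  have p4 := FP.comp FP.snd p2
  have p5 := FP.comp FP.snd (FP.comp FP.fst p4)
  have p6 := FP.comp FP.snd (FP.comp FP.fst (FP.comp FP.snd p4))
  have p7 := FP.comp FP.snd (FP.comp FP.snd (FP.comp FP.snd p4))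
  refine FP.or (FP.and (FP.natEq p1 (FP.const 0)) (fp_any _ (fun t => FP.and (FP.const _)
    (FP.natEq p3 (FP.const _))))) (FP.and (FP.not (FP.natEq p1 (FP.const 0)))
      (fp_any _ (fun u => FP.and (FP.const _) (FP.and (FP.natEq p3 (FP.const _))
        (FP.and (FP.eqR p5 (FP.const _)) (FP.and (FP.eqR p6 (FP.const _))
          (FP.eqR p7 (FP.const _))))))))

/-- the code of the colouring as a string -/
noncomputable def outC (l : List (Desc (NV Name))) : List Sym :=
  l.flatMap (fun p => del ((bitEncode ((col3 p : Fin 3) : ℕ)).map bs))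

theorem fp_outC : FP outC := by
  refine FP.flatMapS FP.id (g := fun y : List (Desc (NV Name)) × Desc (NV Name) =>
    del ((bitEncode ((col3 y.2 : Fin 3) : ℕ)).map bs)) ?_
  refine FP.del ((FP.ite (fp_isC 1 FP.snd) (FP.const ((bitEncode (1 : ℕ)).map bs))
    (FP.ite (fp_isC 2 FP.snd) (FP.const ((bitEncode (2 : ℕ)).map bs))
      (FP.const ((bitEncode (0 : ℕ)).map bs)))).congr (fun y => ?_))
  unfold col3
  split_ifs <;> rfl

theorem outC_eq (inst : List (Trip (NV Name))) :
    outC (vertsD inst) = (encodeColouring (colG inst)).map bs := by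
  unfold encodeColouring outC
  rw [bitEncode_list]
  have h1 : (List.ofFn fun i => ((colG inst i : Fin 3) : ℕ)) =
      (vertsD inst).map (fun p => ((col3 p : Fin 3) : ℕ)) := by
    apply List.ext_getElem
    · simp
    · intro i hi hi'
      simp only [List.getElem_ofFn, List.getElem_map]
      rfl
  rw [h1, List.flatMap_map]

theorem hard_coloured : ∀ L ∈ N68a2faeb.NP, ∃ f g : List Bool → List Bool,
    N68a2faeb.IsPolyTime f ∧ N68a2faeb.IsPolyTime g ∧ ∀ w, ∃ (n : ℕ) (G : SimpleGraph (Fin n))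
      (c : Fin n → Fin 3), f w = encodeGraph G ∧ g w = encodeColouring c ∧
      (∀ u v, G.Adj u v → c u ≠ c v) ∧ G.chromaticNumber = 3 ∧
      (L w = true → circChromatic G ≤ 8 / 3) ∧ (L w = false → circChromatic G = 3) := by
  intro L hL
  obtain ⟨h, hh, hLh⟩ := cook_levin hL
  have hfp : FP (fun s : List Sym => vertsD (nae (h s) ++ [trivC])) :=
    fp_vertsD (FP.appendE (fp_nae hh) (FP.const _))
  refine ⟨fun x => encodeGraph (graphD (nae (h ((bitEncode x).map bs)) ++ [trivC])),
    fun x => encodeColouring (colG (nae (h ((bitEncode x).map bs)) ++ [trivC])), ?_, ?_,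
    fun w => ⟨_, graphD (nae (h ((bitEncode w).map bs)) ++ [trivC]),
      colG (nae (h ((bitEncode w).map bs)) ++ [trivC]), rfl, rfl,
      fun u v huv => colG_proper _ huv, graphD_chromatic (by simp), fun h1 => ?_, fun h1 => ?_⟩⟩
  · exact isPolyTime_of_fp (g := fun s => outG (vertsD (nae (h s) ++ [trivC])))
      (FP.comp fp_outG hfp) (fun x => outG_eq _)
  · exact isPolyTime_of_fp (g := fun s => outC (vertsD (nae (h s) ++ [trivC])))
      (FP.comp fp_outC hfp) (fun x => outC_eq _)
  · rw [hLh, ← nae_iff, ← nsat_append] at h1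
    exact completeD _ h1
  · refine le_antisymm (graphD_le_three _) ?_
    by_contra hcon
    have h2 := soundD _ (not_le.1 hcon)
    rw [nsat_append, nae_iff, ← hLh] at h2
    rw [h2] at h1
    exact absurd h1 (by decide)

end Pool.Agent.Lib_MP_8cd8c6_lc
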