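import Mathlib

/-!
# Circular chromatic number, NAE-3SAT, and the reduction graph
-/

namespace Pool.Agent.Lib_MP_8cd8c6_lc

/-- `c` is a `(p, q)`-colouring of `G`: adjacent vertices have colours in `{0, …, p - 1}` with
`q ≤ |c u - c v| ≤ p - q`. -/
def IsCircColouring {V : Type*} (G : SimpleGraph V) (p q : ℕ) (c : V → Fin p) : Prop :=
  ∀ u v, G.Adj u v → (q : ℤ) ≤ |((c u : ℕ) : ℤ) - ((c v : ℕ) : ℤ)| ∧
    |((c u : ℕ) : ℤ) - ((c v : ℕ) : ℤ)| ≤ (p : ℤ) - q

/-- The circular chromatic number: the infimum of `p / q` over all integers `p ≥ 2 q ≥ 2` such that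
`G` has a `(p, q)`-colouring. -/
noncomputable def circChromatic {V : Type*} (G : SimpleGraph V) : ℝ :=
  sInf {r : ℝ | ∃ p q : ℕ, 1 ≤ q ∧ 2 * q ≤ p ∧ r = (p : ℝ) / q ∧ ∃ c, IsCircColouring G p q c}

/-- An instance of NAE-3SAT with `n` variables and `m` clauses: every clause has three literals, a
literal being a variable together with a sign (`true` means negated). -/
abbrev NAEInstance (n m : ℕ) : Type := Fin m → Fin 3 → Fin n × Bool

/-- The value of a literal under an assignment. -/
def litVal {n : ℕ} (a : Fin n → Bool) (l : Fin n × Bool) : Bool := xor (a l.1) l.2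

/-- The instance is satisfiable in the not-all-equal sense: some assignment makes, in every clause,
the values of two literals different. -/
def NAESat {n m : ℕ} (φ : NAEInstance n m) : Prop :=
  ∃ a : Fin n → Bool, ∀ j, ∃ k l, litVal a (φ j k) ≠ litVal a (φ j l)

/-- The vertices of the reduction graph: a 5-cycle for each variable and ten vertices for each
clause (the vertices `0, …, 8` of a 9-cycle, and the centre `9`). -/
abbrev RVert (n m : ℕ) : Type := (Fin n × ZMod 5) ⊕ (Fin m × Fin 10)

/-- The edges inside a clause gadget: the 9-cycle `0, …, 8`, and the centre `9` joined to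
`0, 3, 6`. -/
def gadgetRel (a b : Fin 10) : Prop :=
  (a.val < 9 ∧ b.val = (a.val + 1) % 9) ∨ (a.val = 9 ∧ b.val < 9 ∧ 3 ∣ b.val)

/-- The three faces of a clause gadget, which are 5-cycles through the centre: the face number `k`
is the cycle `9, 3k, 3k + 1, 3k + 2, 3k + 3` (where `3k + 3` is taken modulo `9`). -/
def face (k : Fin 3) (t : ZMod 5) : Fin 10 :=
  if t.val = 0 then 9 else Fin.ofNat 10 ((3 * k.val + t.val - 1) % 9)

/-- The generating relation of the reduction graph. The `k`-th face of the gadget of a clause is
matched with the 5-cycle of the variable of the `k`-th literal of the clause, with the orientation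
reversed if the literal is negated. -/
def redRel {n m : ℕ} (φ : NAEInstance n m) : RVert n m → RVert n m → Prop
  | .inl (i, a), .inl (i', b) => i = i' ∧ b = a + 1
  | .inr (j, a), .inr (j', b) => j = j' ∧ gadgetRel a b
  | .inl (i, a), .inr (j, b) => ∃ k t, (φ j k).1 = i ∧ b = face k t ∧
      a = if (φ j k).2 then -t else t
  | .inr _, .inl _ => False

/-- The reduction graph. -/
def redGraph {n m : ℕ} (φ : NAEInstance n m) : SimpleGraph (RVert n m) :=
  SimpleGraph.fromRel (redRel φ)

end Pool.Agent.Lib_MP_8cd8c6_lc
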