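import Pool.Agent.Lib_MP_8cd8c6_lc.Proof

/-!
# The reduction graph as a list of vertex descriptions
-/

namespace Pool.Agent.Lib_MP_8cd8c6_lc

/-- a clause with three literals; the sign `true` means negated -/
abbrev Trip (ν : Type) := (ν × Bool) × (ν × Bool) × (ν × Bool)

/-- the `k`-th literal -/
def lit3 {ν : Type} (c : Trip ν) (k : Fin 3) : ν × Bool :=
  if k = 0 then c.1 else if k = 1 then c.2.1 else c.2.2

/-- the value of a literal -/
def lv {ν : Type} (a : ν → Bool) (l : ν × Bool) : Bool := xor (a l.1) l.2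

/-- not-all-equal satisfiability -/
def NSat {ν : Type} (inst : List (Trip ν)) : Prop :=
  ∃ a : ν → Bool, ∀ c ∈ inst, lv a c.1 ≠ lv a c.2.1 ∨ lv a c.1 ≠ lv a c.2.2 ∨
    lv a c.2.1 ≠ lv a c.2.2

/-- descriptions of the vertices -/
abbrev Desc (ν : Type) := ℕ × ℕ × Trip ν

variable {ν : Type} [Inhabited ν]

/-- the filler literal -/
def dl : ν × Bool := (default, true)

/-- the vertex `t` of the cycle of the variable `v` -/
def vd (v : ν) (t : ℕ) : Desc ν := (0, t, (v, true), dl, dl)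

/-- the vertices -/
def vertsD (inst : List (Trip ν)) : List (Desc ν) :=
  (List.range inst.length).flatMap (fun j =>
    ((List.range 5).map (fun t => vd (inst[j]?.getD (dl, dl, dl)).1.1 t) ++
    ((List.range 5).map (fun t => vd (inst[j]?.getD (dl, dl, dl)).2.1.1 t) ++
    ((List.range 5).map (fun t => vd (inst[j]?.getD (dl, dl, dl)).2.2.1 t) ++
    (List.range 10).map (fun a => (j + 1, a, inst[j]?.getD (dl, dl, dl)))))))

/-- the generating relation -/
def relD (p q : Desc ν) : Prop :=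
  (p.1 = 0 ∧ q.1 = 0 ∧ p.2.2.1.1 = q.2.2.1.1 ∧ q.2.1 = (p.2.1 + 1) % 5) ∨
  (p.1 ≠ 0 ∧ q.1 = p.1 ∧ ((p.2.1 < 9 ∧ q.2.1 = (p.2.1 + 1) % 9) ∨
    (p.2.1 = 9 ∧ (q.2.1 = 0 ∨ q.2.1 = 3 ∨ q.2.1 = 6)))) ∨
  (p.1 = 0 ∧ q.1 ≠ 0 ∧ ∃ (k : Fin 3) (t : ZMod 5), (lit3 q.2.2 k).1 = p.2.2.1.1 ∧
    q.2.1 = (face k t).val ∧ p.2.1 = if (lit3 q.2.2 k).2 then (-t).val else t.val)

omit [Inhabited ν] in
theorem relD_irrefl (p : Desc ν) : ¬ relD p p := by
  rintro (⟨_, _, _, h⟩ | ⟨_, _, (⟨_, h⟩ | ⟨h, h'⟩)⟩ | ⟨h, h', _⟩)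
  · omega
  · omega
  · omega
  · exact h' h

/-- the graph -/
def graphD (inst : List (Trip ν)) : SimpleGraph (Fin (vertsD inst).length) where
  Adj i j := relD ((vertsD inst).get i) ((vertsD inst).get j) ∨
    relD ((vertsD inst).get j) ((vertsD inst).get i)
  symm := ⟨fun _ _ h => h.symm⟩
  loopless := ⟨fun i h => by
    rcases h with h | h
    · exact relD_irrefl _ h
    · exact relD_irrefl _ h⟩

theorem mem_vertsD {inst : List (Trip ν)} {p : Desc ν} :
    p ∈ vertsD inst ↔ ∃ (j : ℕ) (c : Trip ν), inst[j]? = some c ∧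
      ((∃ (k : Fin 3) (t : ℕ), t < 5 ∧ p = vd (lit3 c k).1 t) ∨ ∃ a < 10, p = (j + 1, a, c)) := by
  simp only [vertsD, List.mem_flatMap, List.mem_range, List.mem_append, List.mem_map]
  constructor
  · rintro ⟨j, hj, h⟩
    rw [List.getElem?_eq_getElem hj, Option.getD_some] at h
    refine ⟨j, inst[j], List.getElem?_eq_getElem hj, ?_⟩
    rcases h with ⟨t, ht, rfl⟩ | ⟨t, ht, rfl⟩ | ⟨t, ht, rfl⟩ | ⟨a, ha, rfl⟩
    · exact Or.inl ⟨0, t, ht, rfl⟩
    · exact Or.inl ⟨1, t, ht, rfl⟩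
    · exact Or.inl ⟨2, t, ht, rfl⟩
    · exact Or.inr ⟨a, ha, rfl⟩
  · rintro ⟨j, c, hj, h⟩
    refine ⟨j, (List.getElem?_eq_some_iff.1 hj).1, ?_⟩
    rw [hj, Option.getD_some]
    rcases h with ⟨k, t, ht, rfl⟩ | ⟨a, ha, rfl⟩
    · match k with
      | 0 => exact Or.inl ⟨t, ht, rfl⟩
      | 1 => exact Or.inr (Or.inl ⟨t, ht, rfl⟩)
      | 2 => exact Or.inr (Or.inr (Or.inl ⟨t, ht, rfl⟩))
    · exact Or.inr (Or.inr (Or.inr ⟨a, ha, rfl⟩))

theorem exists_idx {inst : List (Trip ν)} {p : Desc ν} (h : p ∈ vertsD inst) :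
    ∃ i : Fin (vertsD inst).length, (vertsD inst).get i = p := by
  obtain ⟨i, hi⟩ := List.mem_iff_get.1 h
  exact ⟨i, hi⟩

theorem soundD (inst : List (Trip ν)) (h : circChromatic (graphD inst) < 3) : NSat inst := by
  classical
  obtain ⟨p, q, hq, -, hpq, c, hc⟩ := circ_lt_three _ h
  -- the variable cycles
  have hvar : ∀ v : ν, ∃ w : ZMod 5 → Option (Fin (vertsD inst).length),
      (∃ cl ∈ inst, ∃ k, (lit3 cl k).1 = v) → ∀ t, ∃ i, w t = some i ∧
        (vertsD inst).get i = vd v t.val := by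
    intro v
    by_cases hv : ∃ cl ∈ inst, ∃ k, (lit3 cl k).1 = v
    · obtain ⟨cl, hcl, k, hk⟩ := hv
      obtain ⟨j, hj⟩ := List.mem_iff_getElem?.1 hcl
      have : ∀ t : ZMod 5, ∃ i, (vertsD inst).get i = vd v t.val := by
        intro t
        refine exists_idx (mem_vertsD.2 ⟨j, cl, hj, Or.inl ⟨k, t.val, t.val_lt, ?_⟩⟩)
        rw [hk]
      choose w hw using this
      exact ⟨fun t => some (w t), fun _ t => ⟨w t, rfl, hw t⟩⟩
    · exact ⟨fun _ => none, fun h => absurd h hv⟩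
  choose W hW using hvar
  by_cases hne : Nonempty (Fin (vertsD inst).length)
  swap
  · -- no vertices: no clauses
    refine ⟨fun _ => true, fun cl hcl => ?_⟩
    exfalso
    obtain ⟨j, hj⟩ := List.mem_iff_getElem?.1 hcl
    obtain ⟨i, -⟩ := exists_idx (mem_vertsD.2 ⟨j, cl, hj, Or.inr ⟨0, by norm_num, rfl⟩⟩)
    exact hne ⟨i⟩
  let W' : ν → ZMod 5 → Fin (vertsD inst).length := fun v t => (W v t).getD hne.some
  have hW' : ∀ v, (∃ cl ∈ inst, ∃ k, (lit3 cl k).1 = v) → ∀ t,
      (vertsD inst).get (W' v t) = vd v t.val := by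
    intro v hv t
    obtain ⟨i, hi, hi'⟩ := hW v hv t
    simp only [W', hi, Option.getD_some]
    exact hi'
  have hWadj : ∀ v, (∃ cl ∈ inst, ∃ k, (lit3 cl k).1 = v) → ∀ t,
      (graphD inst).Adj (W' v t) (W' v (t + 1)) := by
    intro v hv t
    left
    rw [hW' v hv, hW' v hv]
    left
    refine ⟨rfl, rfl, rfl, ?_⟩
    have : ∀ t : ZMod 5, (t + 1).val = (t.val + 1) % 5 := by decide
    exact this t
  refine ⟨fun v => decide (S5 c (W' v) = 3 * p), fun cl hcl => ?_⟩
  obtain ⟨j, hj⟩ := List.mem_iff_getElem?.1 hcl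
  have hocc : ∀ k : Fin 3, ∃ cl' ∈ inst, ∃ k', (lit3 cl' k').1 = (lit3 cl k).1 :=
    fun k => ⟨cl, hcl, k, rfl⟩
  have hU : ∀ a : Fin 10, ∃ i, (vertsD inst).get i = (j + 1, a.val, cl) :=
    fun a => exists_idx (mem_vertsD.2 ⟨j, cl, hj, Or.inr ⟨a.val, a.2, rfl⟩⟩)
  choose U hU' using hU
  have hUadj : ∀ e ∈ gadgetEdges, (graphD inst).Adj (U e.1) (U e.2) := by
    intro e he
    left
    rw [hU', hU']
    right; left
    refine ⟨by simp, rfl, ?_⟩
    have key : ∀ e : Fin 10 × Fin 10, e ∈ gadgetEdges →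
        ((e.1.val < 9 ∧ e.2.val = (e.1.val + 1) % 9) ∨
        (e.1.val = 9 ∧ (e.2.val = 0 ∨ e.2.val = 3 ∨ e.2.val = 6))) := by decide
    exact key e he
  have hUface : ∀ (k : Fin 3) (t : ZMod 5), (graphD inst).Adj (U (face k t)) (U (face k (t + 1))) := by
    intro k t
    have key : ∀ (k : Fin 3) (t : ZMod 5), (face k t, face k (t + 1)) ∈ gadgetEdges ∨
        (face k (t + 1), face k t) ∈ gadgetEdges := by decide
    rcases key k t with h | h
    · exact hUadj _ h
    · exact (hUadj _ h).symm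
  have hmatch : ∀ (k : Fin 3) (t : ZMod 5), (graphD inst).Adj
      (W' (lit3 cl k).1 (if (lit3 cl k).2 then -t else t)) (U (face k t)) := by
    intro k t
    left
    rw [hW' _ (hocc k), hU']
    right; right
    refine ⟨rfl, by simp, k, t, rfl, rfl, ?_⟩
    simp only [vd]
    split_ifs <;> rfl
  have hface : ∀ k, S5 c (fun t => U (face k t)) =
      if lv (fun v => decide (S5 c (W' v) = 3 * p)) (lit3 cl k) = true then 3 * (p : ℤ)
        else 2 * p := by
    intro k
    have hadj := hWadj _ (hocc k)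
    have h1 : S5 c (fun t => W' (lit3 cl k).1 (if (lit3 cl k).2 then -t else t)) =
        S5 c (fun t => U (face k t)) := by
      apply prism hc hq hpq
      · intro t
        rcases (lit3 cl k).2 with _ | _
        · exact hadj t
        · have := (hadj (-(t + 1))).symm
          have e : -(t + 1) + 1 = -t := by ring
          rw [e] at this
          exact this
      · exact fun t => hUface k t
      · exact fun t => hmatch k t
    rw [← h1]
    have h2 := S5_eq hc hq hpq hadj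
    have h3 : S5 c (fun t => W' (lit3 cl k).1 (if (lit3 cl k).2 then -t else t)) =
        if (lit3 cl k).2 then 5 * p - S5 c (W' (lit3 cl k).1) else S5 c (W' (lit3 cl k).1) := by
      rcases (lit3 cl k).2 with _ | _
      · simp
      · rw [← S5_rev hc hq hadj]; simp
    rw [h3]
    have hp0 : (0 : ℤ) < p := by
      have : 0 < p := (c (U 0)).pos
      exact_mod_cast this
    unfold lv
    beta_reduce
    rcases (lit3 cl k).2 with _ | _ <;> rcases h2 with h2 | h2
    · have h4 : ¬ (S5 c (W' (lit3 cl k).1) = 3 * p) := by rw [h2]; linarith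
      rw [decide_eq_false h4]
      simpa using h2
    · rw [decide_eq_true h2]
      simpa using h2
    · have h4 : ¬ (S5 c (W' (lit3 cl k).1) = 3 * p) := by rw [h2]; linarith
      rw [decide_eq_false h4]
      simp only [Bool.xor_true, Bool.not_false, if_true]
      rw [h2]; ring
    · rw [decide_eq_true h2, h2]
      simp only [Bool.xor_true, Bool.not_true, if_true, Bool.false_eq_true, if_false]
      ring
  by_contra hcon
  push Not at hcon
  obtain ⟨e1, e2, e3⟩ := hcon
  have h0 := hface 0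
  have h1 := hface 1
  have h2 := hface 2
  have l0 : lit3 cl 0 = cl.1 := rfl
  have l1 : lit3 cl 1 = cl.2.1 := rfl
  have l2 : lit3 cl 2 = cl.2.2 := rfl
  rw [l0] at h0
  rw [l1, ← e1] at h1
  rw [l2, ← e2] at h2
  refine gadget_sound hc hq hpq (u := U) hUadj _ h0 h1 h2 ?_
  split_ifs
  · right; rfl
  · left; rfl

/-- the colours of the vertices -/
def colD (a : ν → Bool) (p : Desc ν) : Fin 8 :=
  if p.1 = 0 then gcol (a p.2.2.1.1) ((p.2.1 : ℕ) : ZMod 5)
  else ccol (lv a p.2.2.1) (lv a p.2.2.2.1) (lv a p.2.2.2.2) (Fin.ofNat 10 p.2.1)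

theorem colD_rel {inst : List (Trip ν)} {a : ν → Bool}
    (ha : ∀ c ∈ inst, lv a c.1 ≠ lv a c.2.1 ∨ lv a c.1 ≠ lv a c.2.2 ∨ lv a c.2.1 ≠ lv a c.2.2)
    {p q : Desc ν} (hp : p ∈ vertsD inst) (hq : q ∈ vertsD inst) (h : relD p q) :
    okPair (colD a p) (colD a q) := by
  obtain ⟨j, c, hj, hp⟩ := mem_vertsD.1 hp
  obtain ⟨j', c', hj', hq⟩ := mem_vertsD.1 hq
  have hcm : c' ∈ inst := List.mem_iff_getElem?.2 ⟨j', hj'⟩
  rcases hp with ⟨k, t, ht, rfl⟩ | ⟨b, hb, rfl⟩ <;> rcases hq with ⟨k', t', ht', rfl⟩ | ⟨b', hb', rfl⟩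
  · -- two variable vertices
    rcases h with ⟨-, -, h1, h2⟩ | ⟨h1, -⟩ | ⟨-, h1, -⟩
    · simp only [vd] at h1 h2
      simp only [colD, vd, if_true]
      rw [h1, h2]
      have key : ∀ (x : Bool) (t : Fin 5), okPair (gcol x ((t.val : ℕ) : ZMod 5))
          (gcol x (((t.val + 1) % 5 : ℕ) : ZMod 5)) := by decide
      exact key _ ⟨t, ht⟩
    · exact absurd rfl h1
    · exact absurd rfl h1
  · -- variable and clause
    rcases h with ⟨-, h1, -⟩ | ⟨h1, -⟩ | ⟨-, -, k'', t'', h1, h2, h3⟩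
    · simp at h1
    · exact absurd rfl h1
    · simp only [vd] at h1 h2 h3
      have e1 : colD a (vd (lit3 c k).1 t) = gcol (lv a (lit3 c' k'')) t'' := by
        simp only [colD, vd, if_true]
        rw [← h1, h3]
        unfold lv
        rw [← gcol_xor]
        have key : ∀ (s : Bool) (t : ZMod 5), (((if s = true then (-t).val else t.val : ℕ)) : ZMod 5)
            = if s = true then -t else t := by decide
        rw [key]
      have e2 : colD a (j' + 1, b', c') = ccol (lv a c'.1) (lv a c'.2.1) (lv a c'.2.2)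
          (face k'' t'') := by
        simp only [colD]
        rw [if_neg (by omega), h2]
        congr 1
        exact Fin.ext (Nat.mod_eq_of_lt (face k'' t'').2)
      rw [e1, e2]
      have h4 := ccol_match _ _ _ (ha c' hcm) t''
      match k'' with
      | 0 => exact h4.1
      | 1 => exact h4.2.1
      | 2 => exact h4.2.2
  · rcases h with ⟨h1, -⟩ | ⟨-, h1, -⟩ | ⟨h1, -⟩
    · simp at h1
    · simp [vd] at h1
    · simp at h1
  · rcases h with ⟨h1, -⟩ | ⟨-, h1, h2⟩ | ⟨h1, -⟩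
    · simp at h1
    · simp only [Nat.add_right_cancel_iff] at h1
      subst h1
      rw [hj'] at hj
      obtain rfl := Option.some.inj hj
      simp only [colD]
      rw [if_neg (by omega), if_neg (by omega)]
      have key : ∀ b b' : Fin 10, ((b.val < 9 ∧ b'.val = (b.val + 1) % 9) ∨
          (b.val = 9 ∧ (b'.val = 0 ∨ b'.val = 3 ∨ b'.val = 6))) → (b, b') ∈ gadgetEdges := by
        decide
      have e := ccol_edges _ _ _ (ha c' hcm) _ (key ⟨b, hb⟩ ⟨b', hb'⟩ h2)
      have o1 : Fin.ofNat 10 b = ⟨b, hb⟩ := Fin.ext (Nat.mod_eq_of_lt hb)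
      have o2 : Fin.ofNat 10 b' = ⟨b', hb'⟩ := Fin.ext (Nat.mod_eq_of_lt hb')
      rw [o1, o2]
      exact e
    · simp at h1

theorem completeD (inst : List (Trip ν)) (h : NSat inst) :
    circChromatic (graphD inst) ≤ 8 / 3 := by
  obtain ⟨a, ha⟩ := h
  have := circ_le_of (graphD inst) (p := 8) (q := 3) (by norm_num) (by norm_num)
    (fun i => colD a ((vertsD inst).get i)) (by
    intro u v huv
    have h1 : okPair (colD a ((vertsD inst).get u)) (colD a ((vertsD inst).get v)) := by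
      rcases huv with h | h
      · exact colD_rel ha (List.get_mem _ _) (List.get_mem _ _) h
      · exact okPair_symm (colD_rel ha (List.get_mem _ _) (List.get_mem _ _) h)
    have h2 := okPair_abs h1
    refine ⟨?_, ?_⟩
    · push_cast; exact h2.1
    · push_cast; linarith [h2.2])
  exact_mod_cast this

end Pool.Agent.Lib_MP_8cd8c6_lc
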