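import Pool.Agent.Lib_MP_8cd8c6_lc.Desc
import Pool.Agent.Lib_MP_8cd8c6_lc.FPExtra
import Pool.Agent.Lib_MP_42fe4d_lc.CL.Hard

/-!
# From satisfiability to not-all-equal satisfiability
-/

namespace Pool.Agent.Lib_MP_8cd8c6_lc

open Pool.Agent.PartSep Pool.Agent.PartSep.TM Pool.Agent.PartSep.CL
open Pool.Agent.PartSep.TM.Rep

set_option synthInstance.maxSize 2000

/-- the variables of the NAE instance: `(0, [(x, true)])` is the variable `x`, and `(1, s)` is the
disjunction of the literals of `s` -/
abbrev NV (ν : Type) := ℕ × List (ν × Bool)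

section
variable {ν : Type} [Inhabited ν]

/-- the clauses of the NAE instance for a clause `c` -/
def clauseN (cl : List (ν × Bool)) : List (Trip (NV ν)) :=
  (List.range cl.length).map (fun i =>
    (((1, cl.drop (i + 1)), false),
      ((0, [((cl[i]?.getD (default, true)).1, true)]), !(cl[i]?.getD (default, true)).2),
      ((1, cl.drop i), true))) ++
  [(((1, cl), false), ((1, []), false), ((1, []), false))]

/-- the NAE instance of a formula -/
def nae (φ : CNF ν) : List (Trip (NV ν)) := φ.flatMap clauseN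

theorem nae_sound (φ : CNF ν) (h : NSat (nae φ)) : φ.Satisfiable := by
  obtain ⟨a, ha⟩ := h
  refine ⟨fun x => xor (a (0, [(x, true)])) (a (1, [])), fun cl hc => ?_⟩
  by_contra hcon
  push Not at hcon
  have hcl : ∀ t ∈ clauseN cl, lv a t.1 ≠ lv a t.2.1 ∨ lv a t.1 ≠ lv a t.2.2 ∨
      lv a t.2.1 ≠ lv a t.2.2 := fun t ht => ha t (List.mem_flatMap.2 ⟨cl, hc, ht⟩)
  -- all the disjunctions have the value of the empty one
  have key : ∀ m ≤ cl.length, a (1, cl.drop (cl.length - m)) = a (1, []) := by
    intro m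
    induction m with
    | zero => intro _; simp
    | succ m ih =>
      intro hm
      have ih' := ih (by omega)
      set i := cl.length - (m + 1) with hi
      have e1 : cl.length - m = i + 1 := by omega
      rw [e1] at ih'
      have hilt : i < cl.length := by omega
      have h1 := hcl _ (List.mem_append_left _ (List.mem_map.2 ⟨i, List.mem_range.2 hilt, rfl⟩))
      have h2 := hcon cl[i] (List.getElem_mem hilt)
      rw [List.getElem?_eq_getElem hilt] at h1
      simp only [lv, Option.getD_some, Bool.xor_false, Bool.xor_true, ih'] at h1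
      revert h1 h2
      generalize a (1, List.drop i cl) = x
      generalize a (1, []) = y
      generalize a (0, [(cl[i].1, true)]) = z
      generalize cl[i].2 = b
      cases x <;> cases y <;> cases z <;> cases b <;> simp
  have h1 := key cl.length le_rfl
  simp only [Nat.sub_self, List.drop_zero] at h1
  have h2 := hcl _ (List.mem_append_right _ (List.mem_singleton.2 rfl))
  simp [lv, h1] at h2

theorem nae_complete (φ : CNF ν) (h : φ.Satisfiable) : NSat (nae φ) := by
  obtain ⟨τ, hτ⟩ := h
  refine ⟨fun v => if v.1 = 0 then τ (v.2.head?.getD (default, true)).1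
    else v.2.any (fun l => τ l.1 == l.2), fun t ht => ?_⟩
  obtain ⟨cl, hc, ht⟩ := List.mem_flatMap.1 ht
  rcases List.mem_append.1 ht with ht | ht
  · obtain ⟨i, hi, rfl⟩ := List.mem_map.1 ht
    rw [List.mem_range] at hi
    have e1 : cl.drop i = cl[i] :: cl.drop (i + 1) := List.drop_eq_getElem_cons hi
    rw [List.getElem?_eq_getElem hi]
    simp only [lv, Option.getD_some, e1, List.any_cons, one_ne_zero, if_false, if_true,
      List.head?_cons, Bool.xor_false, Bool.xor_true]
    generalize τ cl[i].1 = x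
    generalize cl[i].2 = b
    generalize (List.drop (i + 1) cl).any (fun l => τ l.1 == l.2) = y
    cases x <;> cases b <;> cases y <;> simp
  · rw [List.mem_singleton] at ht
    subst ht
    left
    obtain ⟨l, hl, hl'⟩ := hτ cl hc
    have : cl.any (fun l => τ l.1 == l.2) = true :=
      List.any_eq_true.2 ⟨l, hl, by simp [hl']⟩
    simp [lv, this]

theorem nae_iff (φ : CNF ν) : NSat (nae φ) ↔ φ.Satisfiable := ⟨nae_sound φ, nae_complete φ⟩

end

/-! ### Types with injective representations -/

variable {E F G : Type} [Rep E] [Rep F] [Rep G]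

/-! ### The generators -/

instance : Inhabited (Trip (NV Name)) :=
  ⟨(dl (ν := NV Name), dl (ν := NV Name), dl (ν := NV Name))⟩

theorem fp_nvlit {n : ℕ} {s : E → List (Name × Bool)} (hs : FP s) {b : E → Bool} (hb : FP b) :
    FP (fun x => (((n, s x), b x) : NV Name × Bool)) :=
  FP.pair (FP.pair (FP.const _) hs) hb

theorem fp_clauseN {c : E → List (Name × Bool)} (hc : FP c) :
    FP (fun x => clauseN (c x)) := by
  unfold clauseN
  refine FP.appendE ?_ ?_
  · refine FP.mapE (FP.range (FP.lengthE hc)) (g := fun y : E × ℕ =>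
      ((((1, (c y.1).drop (y.2 + 1)), false),
      ((0, [(((c y.1)[y.2]?.getD (default, true)).1, true)]),
        !((c y.1)[y.2]?.getD (default, true)).2),
      ((1, (c y.1).drop y.2), true)) : Trip (NV Name))) ?_
    have h1 : FP (fun y : E × ℕ => c y.1) := FP.comp hc FP.fst
    have h2 : FP (fun y : E × ℕ => y.2) := FP.snd
    have h3 : FP (fun y : E × ℕ => (c y.1)[y.2]?.getD ((default : Name), true)) :=
      FP.getE h1 h2 _
    refine FP.pair (fp_nvlit (FP.dropE h1 (FP.add h2 (FP.const 1))) (FP.const _)) (FP.pair ?_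
      (fp_nvlit (FP.dropE h1 h2) (FP.const _)))
    exact fp_nvlit (FP.consE (FP.pair (FP.comp FP.fst h3) (FP.const _)) (FP.const []))
      (FP.not (FP.comp FP.snd h3))
  · exact FP.consE (FP.pair (fp_nvlit hc (FP.const _)) (FP.pair (FP.const _) (FP.const _)))
      (FP.const [])

theorem fp_nae {φ : E → CNF Name} (hφ : FP φ) : FP (fun x => nae (φ x)) := by
  unfold nae
  exact FP.flatMapE hφ (g := fun y => clauseN y.2) (fp_clauseN FP.snd)

instance : Inhabited (Desc (NV Name)) := ⟨vd default 0⟩

theorem fp_vd {v : E → NV Name} (hv : FP v) {t : E → ℕ} (ht : FP t) :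
    FP (fun x => vd (v x) (t x)) := by
  unfold vd
  exact FP.pair (FP.const _) (FP.pair ht (FP.pair (FP.pair hv (FP.const _)) (FP.const _)))

theorem fp_vertsD {inst : E → List (Trip (NV Name))} (hi : FP inst) :
    FP (fun x => vertsD (inst x)) := by
  unfold vertsD
  refine FP.flatMapE (FP.range (FP.lengthE hi)) (g := fun y : E × ℕ =>
    ((List.range 5).map (fun t => vd ((inst y.1)[y.2]?.getD (dl, dl, dl)).1.1 t) ++
    ((List.range 5).map (fun t => vd ((inst y.1)[y.2]?.getD (dl, dl, dl)).2.1.1 t) ++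
    ((List.range 5).map (fun t => vd ((inst y.1)[y.2]?.getD (dl, dl, dl)).2.2.1 t) ++
    (List.range 10).map (fun a => (y.2 + 1, a, (inst y.1)[y.2]?.getD (dl, dl, dl))))))) ?_
  have h1 : FP (fun y : E × ℕ => (inst y.1)[y.2]?.getD ((dl, dl, dl) : Trip (NV Name))) :=
    FP.getE (FP.comp hi FP.fst) FP.snd _
  refine FP.appendE (mapConst _ (fun t => ?_)) (FP.appendE (mapConst _ (fun t => ?_))
    (FP.appendE (mapConst _ (fun t => ?_)) (mapConst _ (fun t => ?_))))
  · exact fp_vd (FP.comp FP.fst (FP.comp FP.fst h1)) (FP.const _)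
  · exact fp_vd (FP.comp FP.fst (FP.comp FP.fst (FP.comp FP.snd h1))) (FP.const _)
  · exact fp_vd (FP.comp FP.fst (FP.comp FP.snd (FP.comp FP.snd h1))) (FP.const _)
  · exact FP.pair (FP.add FP.snd (FP.const 1)) (FP.pair (FP.const _) h1)

/-- the generating relation as a Boolean -/
noncomputable def relB (p q : Desc (NV Name)) : Bool :=
  (decide (p.1 = 0) && (decide (q.1 = 0) && (decide (p.2.2.1.1 = q.2.2.1.1) &&
    (List.range 5).any (fun t => decide (p.2.1 = t) && decide (q.2.1 = (t + 1) % 5))))) ||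
  ((!decide (p.1 = 0) && (decide (q.1 = p.1) && ((List.range 9).any (fun t =>
    decide (p.2.1 = t) && decide (q.2.1 = (t + 1) % 9)) ||
    (decide (p.2.1 = 9) && (decide (q.2.1 = 0) || (decide (q.2.1 = 3) || decide (q.2.1 = 6))))))) ||
  (decide (p.1 = 0) && (!decide (q.1 = 0) && (Finset.univ : Finset (Fin 3 × ZMod 5)).toList.any
    (fun kt => decide ((lit3 q.2.2 kt.1).1 = p.2.2.1.1) && (decide (q.2.1 = (face kt.1 kt.2).val) &&
      (if (lit3 q.2.2 kt.1).2 then decide (p.2.1 = (-kt.2).val) else decide (p.2.1 = kt.2.val)))))))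

theorem relB_iff {p q : Desc (NV Name)} (hp : p.1 = 0 → p.2.1 < 5) :
    relB p q = true ↔ relD p q := by
  unfold relB relD
  simp only [Bool.or_eq_true, Bool.and_eq_true, decide_eq_true_eq, List.any_eq_true,
    List.mem_range, Bool.not_eq_true', decide_eq_false_iff_not, Finset.mem_toList,
    Finset.mem_univ, true_and, Prod.exists]
  refine or_congr ?_ (or_congr ?_ ?_)
  · constructor
    · rintro ⟨h1, h2, h3, t, ht, h4, h5⟩
      exact ⟨h1, h2, h3, by rw [h4]; exact h5⟩
    · rintro ⟨h1, h2, h3, h4⟩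
      exact ⟨h1, h2, h3, p.2.1, hp h1, rfl, h4⟩
  · refine and_congr_right (fun _ => and_congr_right (fun _ => or_congr ?_ Iff.rfl))
    constructor
    · rintro ⟨t, ht, h1, h2⟩
      rw [h1]; exact ⟨ht, h2⟩
    · rintro ⟨h1, h2⟩
      exact ⟨p.2.1, h1, rfl, h2⟩
  · refine and_congr_right (fun _ => and_congr_right (fun _ => exists_congr (fun k =>
      exists_congr (fun t => and_congr_right (fun _ => and_congr_right (fun _ => ?_))))))
    split_ifs <;> simp

theorem fp_lit3 {c : E → Trip (NV Name)} (hc : FP c) (k : Fin 3) : FP (fun x => lit3 (c x) k) := by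
  unfold lit3
  match k with
  | 0 => exact FP.comp FP.fst hc
  | 1 => exact FP.comp FP.fst (FP.comp FP.snd hc)
  | 2 => exact FP.comp FP.snd (FP.comp FP.snd hc)

theorem fp_relB {p q : E → Desc (NV Name)} (hp : FP p) (hq : FP q) :
    FP (fun x => relB (p x) (q x)) := by
  unfold relB
  have p1 := FP.comp FP.fst hp
  have p2 := FP.comp FP.snd hp
  have p3 := FP.comp FP.fst p2
  have p4 := FP.comp FP.snd p2
  have p5 := FP.comp FP.fst p4
  have p6 := FP.comp FP.fst p5
  have q1 := FP.comp FP.fst hq
  have q2 := FP.comp FP.snd hq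
  have q3 := FP.comp FP.fst q2
  have q4 := FP.comp FP.snd q2
  have q5 := FP.comp FP.fst q4
  have q6 := FP.comp FP.fst q5
  refine FP.or (FP.and (FP.natEq p1 (FP.const 0)) (FP.and (FP.natEq q1 (FP.const 0)) (FP.and
    (FP.eqR p6 q6) (fp_any _ (fun t => FP.and (FP.natEq p3 (FP.const _))
      (FP.natEq q3 (FP.const _))))))) (FP.or (FP.and (FP.not (FP.natEq p1 (FP.const 0)))
      (FP.and (FP.natEq q1 p1) (FP.or (fp_any _ (fun t => FP.and (FP.natEq p3 (FP.const _))
      (FP.natEq q3 (FP.const _)))) (FP.and (FP.natEq p3 (FP.const _)) (FP.or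
      (FP.natEq q3 (FP.const _)) (FP.or (FP.natEq q3 (FP.const _))
      (FP.natEq q3 (FP.const _)))))))) ?_)
  refine FP.and (FP.natEq p1 (FP.const 0)) (FP.and (FP.not (FP.natEq q1 (FP.const 0)))
    (fp_any _ (fun kt => FP.and (FP.eqR (FP.comp FP.fst (fp_lit3 q4 _)) p6)
      (FP.and (FP.natEq q3 (FP.const _)) (FP.ite (FP.comp FP.snd (fp_lit3 q4 _))
        (FP.natEq p3 (FP.const _)) (FP.natEq p3 (FP.const _)))))))

end Pool.Agent.Lib_MP_8cd8c6_lc
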