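import Pool.Agent.Lib_MP_8cd8c6_lc.Defs

/-!
# Correctness of the reduction
-/

namespace Pool.Agent.Lib_MP_8cd8c6_lc

instance : DecidableRel gadgetRel := fun a b => by unfold gadgetRel; infer_instance

/-- The edges inside a clause gadget, as a list. -/
def gadgetEdges : List (Fin 10 × Fin 10) :=
  [(0, 1), (1, 2), (2, 3), (3, 4), (4, 5), (5, 6), (6, 7), (7, 8), (8, 0), (9, 0), (9, 3), (9, 6)]

theorem mem_gadgetEdges : ∀ e : Fin 10 × Fin 10, e ∈ gadgetEdges ↔ gadgetRel e.1 e.2 := by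
  decide

/-! ### Circular chromatic number below 3 -/

theorem circSet_nonempty {V : Type*} [Finite V] (G : SimpleGraph V) :
    {r : ℝ | ∃ p q : ℕ, 1 ≤ q ∧ 2 * q ≤ p ∧ r = (p : ℝ) / q ∧
      ∃ c, IsCircColouring G p q c}.Nonempty := by
  classical
  have := Fintype.ofFinite V
  let e := Fintype.equivFin V
  refine ⟨((Fintype.card V + 2 : ℕ) : ℝ) / ((1 : ℕ) : ℝ), Fintype.card V + 2, 1, le_refl 1,
    by omega, rfl, fun v => ⟨(e v : ℕ), by have := (e v).2; omega⟩, ?_⟩
  intro u v huv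
  have hne : (e u : ℕ) ≠ (e v : ℕ) := fun h => huv.ne (e.injective (Fin.ext h))
  have h1 := (e u).2
  have h2 := (e v).2
  simp only
  constructor
  · rw [le_abs]; push_cast; omega
  · rw [abs_le]; push_cast; omega

theorem circ_lt_three {V : Type*} [Finite V] (G : SimpleGraph V) (h : circChromatic G < 3) :
    ∃ p q : ℕ, 1 ≤ q ∧ 2 * q ≤ p ∧ p < 3 * q ∧ ∃ c, IsCircColouring G p q c := by
  obtain ⟨r, ⟨p, q, hq, hp, hr, hc⟩, hlt⟩ := exists_lt_of_csInf_lt (circSet_nonempty G) h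
  refine ⟨p, q, hq, hp, ?_, hc⟩
  rw [hr, div_lt_iff₀ (by exact_mod_cast hq)] at hlt
  exact_mod_cast hlt

theorem circ_le_of {V : Type*} (G : SimpleGraph V) {p q : ℕ} (hq : 1 ≤ q) (hp : 2 * q ≤ p)
    (c : V → Fin p) (hc : IsCircColouring G p q c) : circChromatic G ≤ (p : ℝ) / q := by
  refine csInf_le ⟨0, ?_⟩ ⟨p, q, hq, hp, rfl, c, hc⟩
  rintro r ⟨p, q, -, -, rfl, -⟩
  positivity

/-! ### Soundness -/

section sound

variable {V : Type*} {G : SimpleGraph V} {p q : ℕ} {c : V → Fin p}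

/-- The forward step from `u` to `v`. -/
def tau (c : V → Fin p) (u v : V) : ℤ := (((c v : ℕ) : ℤ) - ((c u : ℕ) : ℤ)) % p

theorem tau_dvd (c : V → Fin p) (u v : V) :
    ∃ e : ℤ, tau c u v = ((c v : ℕ) : ℤ) - ((c u : ℕ) : ℤ) + p * e := by
  refine ⟨-((((c v : ℕ) : ℤ) - ((c u : ℕ) : ℤ)) / p), ?_⟩
  unfold tau
  have := Int.emod_add_mul_ediv (((c v : ℕ) : ℤ) - ((c u : ℕ) : ℤ)) p
  linarith

theorem tau_bounds (hc : IsCircColouring G p q c) (hq : 1 ≤ q) {u v : V} (h : G.Adj u v) :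
    (q : ℤ) ≤ tau c u v ∧ tau c u v ≤ p - q ∧ tau c v u = p - tau c u v := by
  obtain ⟨h1, h2⟩ := hc u v h
  have hu := (c u).2
  have hv := (c v).2
  unfold tau
  generalize ((c u : ℕ) : ℤ) = x at *
  generalize ((c v : ℕ) : ℤ) = y at *
  rcases le_total x y with hxy | hxy
  · rw [abs_of_nonpos (by linarith)] at h1 h2
    have e1 : (y - x) % p = y - x := Int.emod_eq_of_lt (by linarith) (by omega)
    have e2 : (x - y) % p = x - y + p := by
      rw [← Int.add_emod_right]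
      exact Int.emod_eq_of_lt (by omega) (by omega)
    rw [e1, e2]
    refine ⟨by linarith, by linarith, by ring⟩
  · rw [abs_of_nonneg (by linarith)] at h1 h2
    have e1 : (x - y) % p = x - y := Int.emod_eq_of_lt (by linarith) (by omega)
    have e2 : (y - x) % p = y - x + p := by
      rw [← Int.add_emod_right]
      exact Int.emod_eq_of_lt (by omega) (by omega)
    rw [e1, e2]
    refine ⟨by linarith, by linarith, by ring⟩

/-- The winding sum of a closed walk of length 5. -/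
def S5 (c : V → Fin p) (w : ZMod 5 → V) : ℤ :=
  tau c (w 0) (w 1) + tau c (w 1) (w 2) + tau c (w 2) (w 3) + tau c (w 3) (w 4) + tau c (w 4) (w 0)

theorem S5_eq (hc : IsCircColouring G p q c) (hq : 1 ≤ q) (hpq : p < 3 * q) {w : ZMod 5 → V}
    (hw : ∀ t, G.Adj (w t) (w (t + 1))) : S5 c w = 2 * p ∨ S5 c w = 3 * p := by
  obtain ⟨a0, b0, -⟩ := tau_bounds hc hq (hw 0)
  obtain ⟨a1, b1, -⟩ := tau_bounds hc hq (hw 1)
  obtain ⟨a2, b2, -⟩ := tau_bounds hc hq (hw 2)
  obtain ⟨a3, b3, -⟩ := tau_bounds hc hq (hw 3)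
  obtain ⟨a4, b4, -⟩ := tau_bounds hc hq (hw 4)
  obtain ⟨e0, f0⟩ := tau_dvd c (w 0) (w 1)
  obtain ⟨e1, f1⟩ := tau_dvd c (w 1) (w 2)
  obtain ⟨e2, f2⟩ := tau_dvd c (w 2) (w 3)
  obtain ⟨e3, f3⟩ := tau_dvd c (w 3) (w 4)
  obtain ⟨e4, f4⟩ := tau_dvd c (w 4) (w 0)
  have h01 : (0 : ZMod 5) + 1 = 1 := rfl
  have h12 : (1 : ZMod 5) + 1 = 2 := rfl
  have h23 : (2 : ZMod 5) + 1 = 3 := rfl
  have h34 : (3 : ZMod 5) + 1 = 4 := rfl
  have h40 : (4 : ZMod 5) + 1 = 0 := rfl
  rw [h01] at a0 b0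
  rw [h12] at a1 b1
  rw [h23] at a2 b2
  rw [h34] at a3 b3
  rw [h40] at a4 b4
  have hS : S5 c w = p * (e0 + e1 + e2 + e3 + e4) := by
    unfold S5; rw [f0, f1, f2, f3, f4]; ring
  have hl : 5 * (q : ℤ) ≤ S5 c w := by unfold S5; linarith
  have hu : S5 c w ≤ 5 * ((p : ℤ) - q) := by unfold S5; linarith
  rw [hS] at hl hu ⊢
  generalize e0 + e1 + e2 + e3 + e4 = k at *
  have hp0 : (0 : ℤ) < p := by
    rcases Nat.eq_zero_or_pos p with h | h
    · subst h; simp at hl; omega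
    · exact_mod_cast h
  have hq' : (p : ℤ) < 3 * q := by exact_mod_cast hpq
  have hk2 : 2 ≤ k := by
    by_contra hk
    have : k ≤ 1 := by omega
    nlinarith
  have hk3 : k ≤ 3 := by
    by_contra hk
    have : 4 ≤ k := by omega
    nlinarith
  have : k = 2 ∨ k = 3 := by omega
  rcases this with h | h <;> subst h
  · left; ring
  · right; ring

/-- The square relation. -/
theorem square (hc : IsCircColouring G p q c) (hq : 1 ≤ q) (hpq : p < 3 * q) {a b a' b' : V}
    (h1 : G.Adj a b) (h2 : G.Adj a' b') (h3 : G.Adj a a') (h4 : G.Adj b b') :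
    tau c a b - tau c a' b' = tau c a a' - tau c b b' := by
  obtain ⟨a0, b0, -⟩ := tau_bounds hc hq h1
  obtain ⟨a1, b1, -⟩ := tau_bounds hc hq h4
  obtain ⟨a2, b2, c2⟩ := tau_bounds hc hq h2
  obtain ⟨a3, b3, c3⟩ := tau_bounds hc hq h3
  obtain ⟨e0, f0⟩ := tau_dvd c a b
  obtain ⟨e1, f1⟩ := tau_dvd c b b'
  obtain ⟨e2, f2⟩ := tau_dvd c b' a'
  obtain ⟨e3, f3⟩ := tau_dvd c a' a
  have hS : tau c a b + tau c b b' + tau c b' a' + tau c a' a = p * (e0 + e1 + e2 + e3) := by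
    rw [f0, f1, f2, f3]; ring
  have hl : 4 * (q : ℤ) ≤ tau c a b + tau c b b' + tau c b' a' + tau c a' a := by
    rw [c2, c3]; linarith
  have hu : tau c a b + tau c b b' + tau c b' a' + tau c a' a ≤ 4 * ((p : ℤ) - q) := by
    rw [c2, c3]; linarith
  have hS' := hS
  rw [hS] at hl hu
  have hp0 : (0 : ℤ) < p := by
    rcases Nat.eq_zero_or_pos p with h | h
    · subst h; simp at hl; omega
    · exact_mod_cast h
  have hq' : (p : ℤ) < 3 * q := by exact_mod_cast hpq
  generalize e0 + e1 + e2 + e3 = k at *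
  have hk : k = 2 := by
    have hk2 : 2 ≤ k := by
      by_contra hk
      have : k ≤ 1 := by omega
      nlinarith
    have hk3 : k ≤ 2 := by
      by_contra hk
      have : 3 ≤ k := by omega
      nlinarith
    omega
  subst hk
  rw [c2, c3] at hS'
  linarith

theorem prism (hc : IsCircColouring G p q c) (hq : 1 ≤ q) (hpq : p < 3 * q) {v w : ZMod 5 → V}
    (hv : ∀ t, G.Adj (v t) (v (t + 1))) (hw : ∀ t, G.Adj (w t) (w (t + 1)))
    (hvw : ∀ t, G.Adj (v t) (w t)) : S5 c v = S5 c w := by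
  have h0 := square hc hq hpq (hv 0) (hw 0) (hvw 0) (hvw 1)
  have h1 := square hc hq hpq (hv 1) (hw 1) (hvw 1) (hvw 2)
  have h2 := square hc hq hpq (hv 2) (hw 2) (hvw 2) (hvw 3)
  have h3 := square hc hq hpq (hv 3) (hw 3) (hvw 3) (hvw 4)
  have h4 := square hc hq hpq (hv 4) (hw 4) (hvw 4) (hvw 0)
  have h01 : (0 : ZMod 5) + 1 = 1 := rfl
  have h12 : (1 : ZMod 5) + 1 = 2 := rfl
  have h23 : (2 : ZMod 5) + 1 = 3 := rfl
  have h34 : (3 : ZMod 5) + 1 = 4 := rfl
  have h40 : (4 : ZMod 5) + 1 = 0 := rfl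
  rw [h01] at h0
  rw [h12] at h1
  rw [h23] at h2
  rw [h34] at h3
  rw [h40] at h4
  unfold S5
  linarith

theorem S5_rev (hc : IsCircColouring G p q c) (hq : 1 ≤ q) {v : ZMod 5 → V}
    (hv : ∀ t, G.Adj (v t) (v (t + 1))) : S5 c (fun t => v (-t)) = 5 * p - S5 c v := by
  obtain ⟨-, -, c0⟩ := tau_bounds hc hq (hv 0)
  obtain ⟨-, -, c1⟩ := tau_bounds hc hq (hv 1)
  obtain ⟨-, -, c2⟩ := tau_bounds hc hq (hv 2)
  obtain ⟨-, -, c3⟩ := tau_bounds hc hq (hv 3)
  obtain ⟨-, -, c4⟩ := tau_bounds hc hq (hv 4)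
  have h01 : (0 : ZMod 5) + 1 = 1 := rfl
  have h12 : (1 : ZMod 5) + 1 = 2 := rfl
  have h23 : (2 : ZMod 5) + 1 = 3 := rfl
  have h34 : (3 : ZMod 5) + 1 = 4 := rfl
  have h40 : (4 : ZMod 5) + 1 = 0 := rfl
  rw [h01] at c0
  rw [h12] at c1
  rw [h23] at c2
  rw [h34] at c3
  rw [h40] at c4
  have g0 : -(0 : ZMod 5) = 0 := rfl
  have g1 : -(1 : ZMod 5) = 4 := rfl
  have g2 : -(2 : ZMod 5) = 3 := rfl
  have g3 : -(3 : ZMod 5) = 2 := rfl
  have g4 : -(4 : ZMod 5) = 1 := rfl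
  unfold S5
  simp only [g0, g1, g2, g3, g4]
  rw [c0, c1, c2, c3, c4]
  ring

/-- The clause gadget: the winding sums of the three faces are not all equal. -/
theorem gadget_sound (hc : IsCircColouring G p q c) (hq : 1 ≤ q) (hpq : p < 3 * q)
    {u : Fin 10 → V} (hu : ∀ e ∈ gadgetEdges, G.Adj (u e.1) (u e.2)) (r : ℤ)
    (h0 : S5 c (fun t => u (face 0 t)) = r) (h1 : S5 c (fun t => u (face 1 t)) = r)
    (h2 : S5 c (fun t => u (face 2 t)) = r) (hr : r = 2 * p ∨ r = 3 * p) : False := by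
  obtain ⟨a0, b0, -⟩ := tau_bounds hc hq (hu (0, 1) (by decide))
  obtain ⟨a1, b1, -⟩ := tau_bounds hc hq (hu (1, 2) (by decide))
  obtain ⟨a2, b2, -⟩ := tau_bounds hc hq (hu (2, 3) (by decide))
  obtain ⟨a3, b3, -⟩ := tau_bounds hc hq (hu (3, 4) (by decide))
  obtain ⟨a4, b4, -⟩ := tau_bounds hc hq (hu (4, 5) (by decide))
  obtain ⟨a5, b5, -⟩ := tau_bounds hc hq (hu (5, 6) (by decide))
  obtain ⟨a6, b6, -⟩ := tau_bounds hc hq (hu (6, 7) (by decide))
  obtain ⟨a7, b7, -⟩ := tau_bounds hc hq (hu (7, 8) (by decide))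
  obtain ⟨a8, b8, -⟩ := tau_bounds hc hq (hu (8, 0) (by decide))
  obtain ⟨-, -, c0⟩ := tau_bounds hc hq (hu (9, 0) (by decide))
  obtain ⟨-, -, c1⟩ := tau_bounds hc hq (hu (9, 3) (by decide))
  obtain ⟨-, -, c2⟩ := tau_bounds hc hq (hu (9, 6) (by decide))
  obtain ⟨e0, f0⟩ := tau_dvd c (u 0) (u 1)
  obtain ⟨e1, f1⟩ := tau_dvd c (u 1) (u 2)
  obtain ⟨e2, f2⟩ := tau_dvd c (u 2) (u 3)
  obtain ⟨e3, f3⟩ := tau_dvd c (u 3) (u 4)
  obtain ⟨e4, f4⟩ := tau_dvd c (u 4) (u 5)
  obtain ⟨e5, f5⟩ := tau_dvd c (u 5) (u 6)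
  obtain ⟨e6, f6⟩ := tau_dvd c (u 6) (u 7)
  obtain ⟨e7, f7⟩ := tau_dvd c (u 7) (u 8)
  obtain ⟨e8, f8⟩ := tau_dvd c (u 8) (u 0)
  simp only at a0 a1 a2 a3 a4 a5 a6 a7 a8 b0 b1 b2 b3 b4 b5 b6 b7 b8 c0 c1 c2
  simp only [S5] at h0 h1 h2
  have g00 : face 0 0 = 9 := by decide
  have g01 : face 0 1 = 0 := by decide
  have g02 : face 0 2 = 1 := by decide
  have g03 : face 0 3 = 2 := by decide
  have g04 : face 0 4 = 3 := by decide
  have g10 : face 1 0 = 9 := by decide
  have g11 : face 1 1 = 3 := by decide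
  have g12 : face 1 2 = 4 := by decide
  have g13 : face 1 3 = 5 := by decide
  have g14 : face 1 4 = 6 := by decide
  have g20 : face 2 0 = 9 := by decide
  have g21 : face 2 1 = 6 := by decide
  have g22 : face 2 2 = 7 := by decide
  have g23 : face 2 3 = 8 := by decide
  have g24 : face 2 4 = 0 := by decide
  rw [g00, g01, g02, g03, g04] at h0
  rw [g10, g11, g12, g13, g14] at h1
  rw [g20, g21, g22, g23, g24] at h2
  have hS : tau c (u 0) (u 1) + tau c (u 1) (u 2) + tau c (u 2) (u 3) + tau c (u 3) (u 4) +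
      tau c (u 4) (u 5) + tau c (u 5) (u 6) + tau c (u 6) (u 7) + tau c (u 7) (u 8) +
      tau c (u 8) (u 0) = p * (e0 + e1 + e2 + e3 + e4 + e5 + e6 + e7 + e8) := by
    rw [f0, f1, f2, f3, f4, f5, f6, f7, f8]; ring
  have hS3 : tau c (u 0) (u 1) + tau c (u 1) (u 2) + tau c (u 2) (u 3) + tau c (u 3) (u 4) +
      tau c (u 4) (u 5) + tau c (u 5) (u 6) + tau c (u 6) (u 7) + tau c (u 7) (u 8) +
      tau c (u 8) (u 0) = 3 * r - 3 * p := by
    linarith
  have hl : 9 * (q : ℤ) ≤ 3 * r - 3 * p := by rw [← hS3]; linarith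
  have hup : 3 * r - 3 * p ≤ 9 * ((p : ℤ) - q) := by rw [← hS3]; linarith
  have hq' : (p : ℤ) < 3 * q := by exact_mod_cast hpq
  rcases hr with h | h <;> subst h <;> linarith

end sound

/-! ### The reduction graph -/

section red

variable {n m : ℕ} (φ : NAEInstance n m)

theorem t_ne : ∀ t : ZMod 5, t ≠ t + 1 := by decide

theorem e_ne : ∀ e ∈ gadgetEdges, e.1 ≠ e.2 := by decide

theorem adj_var (i : Fin n) (t : ZMod 5) :
    (redGraph φ).Adj (.inl (i, t)) (.inl (i, t + 1)) := by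
  rw [redGraph, SimpleGraph.fromRel_adj]
  refine ⟨?_, Or.inl ⟨rfl, rfl⟩⟩
  intro h
  rw [Sum.inl.injEq, Prod.mk.injEq] at h
  exact t_ne t h.2

theorem adj_gadget (j : Fin m) (e : Fin 10 × Fin 10) (he : e ∈ gadgetEdges) :
    (redGraph φ).Adj (.inr (j, e.1)) (.inr (j, e.2)) := by
  rw [redGraph, SimpleGraph.fromRel_adj]
  refine ⟨?_, Or.inl ⟨rfl, (mem_gadgetEdges e).mp he⟩⟩
  intro h
  rw [Sum.inr.injEq, Prod.mk.injEq] at h
  exact e_ne e he h.2

theorem adj_match (j : Fin m) (k : Fin 3) (t : ZMod 5) :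
    (redGraph φ).Adj (.inl ((φ j k).1, if (φ j k).2 then -t else t)) (.inr (j, face k t)) := by
  rw [redGraph, SimpleGraph.fromRel_adj]
  exact ⟨by simp, Or.inl ⟨k, t, rfl, rfl, rfl⟩⟩

theorem adj_face (j : Fin m) (k : Fin 3) (t : ZMod 5) :
    (redGraph φ).Adj (.inr (j, face k t)) (.inr (j, face k (t + 1))) := by
  have key : ∀ (k : Fin 3) (t : ZMod 5), (face k t, face k (t + 1)) ∈ gadgetEdges ∨
      (face k (t + 1), face k t) ∈ gadgetEdges := by decide
  rcases key k t with h | h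
  · exact adj_gadget φ j _ h
  · exact (adj_gadget φ j _ h).symm

theorem sound (h : circChromatic (redGraph φ) < 3) : NAESat φ := by
  classical
  obtain ⟨p, q, hq, -, hpq, c, hc⟩ := circ_lt_three _ h
  let W : Fin n → ZMod 5 → RVert n m := fun i t => .inl (i, t)
  have hW : ∀ i t, (redGraph φ).Adj (W i t) (W i (t + 1)) := fun i t => adj_var φ i t
  refine ⟨fun i => decide (S5 c (W i) = 3 * p), fun j => ?_⟩
  by_contra hcon
  push Not at hcon
  -- the winding sum of a face is determined by the value of the literal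
  have hp0 : (0 : ℤ) < p := by
    have : 0 < p := (c (.inr (j, 0))).pos
    exact_mod_cast this
  have hface : ∀ k, S5 c (fun t => (.inr (j, face k t) : RVert n m)) =
      if litVal (fun i => decide (S5 c (W i) = 3 * p)) (φ j k) = true then 3 * (p : ℤ)
        else 2 * p := by
    intro k
    have h1 : S5 c (fun t => W (φ j k).1 (if (φ j k).2 then -t else t)) =
        S5 c (fun t => (.inr (j, face k t) : RVert n m)) := by
      apply prism hc hq hpq
      · intro t
        rcases (φ j k).2 with _ | _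
        · exact hW _ t
        · have := (hW (φ j k).1 (-(t + 1))).symm
          have e : -(t + 1) + 1 = -t := by ring
          rw [e] at this
          exact this
      · exact fun t => adj_face φ j k t
      · exact fun t => adj_match φ j k t
    rw [← h1]
    have h2 := S5_eq hc hq hpq (hW (φ j k).1)
    have h3 : S5 c (fun t => W (φ j k).1 (if (φ j k).2 then -t else t)) =
        if (φ j k).2 then 5 * p - S5 c (W (φ j k).1) else S5 c (W (φ j k).1) := by
      rcases (φ j k).2 with _ | _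
      · simp
      · rw [← S5_rev hc hq (hW (φ j k).1)]; simp
    rw [h3]
    unfold litVal
    beta_reduce
    rcases (φ j k).2 with _ | _ <;> rcases h2 with h2 | h2
    · have h4 : ¬ (S5 c (W (φ j k).1) = 3 * p) := by rw [h2]; linarith
      rw [decide_eq_false h4]
      simpa using h2
    · rw [decide_eq_true h2]
      simpa using h2
    · have h4 : ¬ (S5 c (W (φ j k).1) = 3 * p) := by rw [h2]; linarith
      rw [decide_eq_false h4]
      simp only [Bool.xor_true, Bool.not_false, if_true]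
      rw [h2]; ring
    · rw [decide_eq_true h2, h2]
      simp only [Bool.xor_true, Bool.not_true, if_true, Bool.false_eq_true, if_false]
      ring
  have h0 := hface 0
  have h1 := hface 1
  have h2 := hface 2
  rw [hcon 1 0] at h1
  rw [hcon 2 0] at h2
  refine gadget_sound hc hq hpq (u := fun a => (.inr (j, a) : RVert n m))
    (fun e he => adj_gadget φ j e he) _ h0 h1 h2 ?_
  split_ifs
  · right; rfl
  · left; rfl

/-! ### Completeness -/

/-- The colouring of a variable cycle. -/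
def gcol (b : Bool) (t : ZMod 5) : Fin 8 :=
  match b, t with
  | false, 0 => 0 | false, 1 => 3 | false, 2 => 6 | false, 3 => 1 | false, 4 => 4
  | true, 0 => 0 | true, 1 => 4 | true, 2 => 1 | true, 3 => 6 | true, 4 => 3

/-- The colouring of the clause gadget, by the values of the three literals. -/
def ccol (x y z : Bool) : Fin 10 → Fin 8 :=
  match x, y, z with
  | false, false, true => ![7, 2, 5, 0, 3, 6, 1, 5, 2, 4]
  | false, true, false => ![0, 3, 6, 1, 5, 2, 7, 2, 5, 4]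
  | false, true, true => ![7, 2, 5, 1, 6, 3, 0, 5, 2, 4]
  | true, false, false => ![1, 5, 2, 7, 2, 5, 0, 3, 6, 4]
  | true, false, true => ![0, 5, 2, 7, 2, 5, 1, 6, 3, 4]
  | true, true, false => ![1, 6, 3, 0, 5, 2, 7, 2, 5, 4]
  | _, _, _ => fun _ => 0

/-- Admissibility of a pair of colours. -/
def okPair (x y : Fin 8) : Prop :=
  3 ≤ ((x : ℕ) - y) + ((y : ℕ) - x) ∧ ((x : ℕ) - y) + ((y : ℕ) - x) ≤ 5

instance (x y : Fin 8) : Decidable (okPair x y) := by unfold okPair; infer_instance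

theorem okPair_symm {x y : Fin 8} (h : okPair x y) : okPair y x := by
  unfold okPair at *
  rw [add_comm]; exact h

theorem okPair_abs {x y : Fin 8} (h : okPair x y) :
    (3 : ℤ) ≤ |((x : ℕ) : ℤ) - ((y : ℕ) : ℤ)| ∧ |((x : ℕ) : ℤ) - ((y : ℕ) : ℤ)| ≤ 5 := by
  unfold okPair at h
  constructor
  · rw [le_abs]; omega
  · rw [abs_le]; omega

theorem gcol_ok : ∀ (b : Bool) (t : ZMod 5), okPair (gcol b t) (gcol b (t + 1)) := by decide

theorem gcol_xor : ∀ (a s : Bool) (t : ZMod 5),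
    gcol a (if s = true then -t else t) = gcol (xor a s) t := by decide

set_option maxRecDepth 20000 in
theorem ccol_edges : ∀ (x y z : Bool), (x ≠ y ∨ x ≠ z ∨ y ≠ z) → ∀ e ∈ gadgetEdges,
    okPair (ccol x y z e.1) (ccol x y z e.2) := by decide

set_option maxRecDepth 20000 in
theorem ccol_match : ∀ (x y z : Bool), (x ≠ y ∨ x ≠ z ∨ y ≠ z) → ∀ (t : ZMod 5),
    okPair (gcol x t) (ccol x y z (face 0 t)) ∧ okPair (gcol y t) (ccol x y z (face 1 t)) ∧
      okPair (gcol z t) (ccol x y z (face 2 t)) := by decide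

/-- The colouring of the reduction graph from a satisfying assignment. -/
def rcol (a : Fin n → Bool) : RVert n m → Fin 8
  | .inl (i, t) => gcol (a i) t
  | .inr (j, b) => ccol (litVal a (φ j 0)) (litVal a (φ j 1)) (litVal a (φ j 2)) b

theorem rcol_rel (a : Fin n → Bool) (ha : ∀ j, ∃ k l, litVal a (φ j k) ≠ litVal a (φ j l))
    {u v : RVert n m} (h : redRel φ u v) : okPair (rcol φ a u) (rcol φ a v) := by
  have hne : ∀ j, litVal a (φ j 0) ≠ litVal a (φ j 1) ∨ litVal a (φ j 0) ≠ litVal a (φ j 2) ∨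
      litVal a (φ j 1) ≠ litVal a (φ j 2) := by
    intro j
    obtain ⟨k, l, hkl⟩ := ha j
    by_contra hcon
    push Not at hcon
    obtain ⟨h1, h2, h3⟩ := hcon
    apply hkl
    have key : ∀ k : Fin 3, litVal a (φ j k) = litVal a (φ j 0) := by
      intro k
      match k with
      | 0 => rfl
      | 1 => exact h1.symm
      | 2 => exact h2.symm
    rw [key k, key l]
  rcases u with ⟨i, x⟩ | ⟨j, x⟩ <;> rcases v with ⟨i', y⟩ | ⟨j', y⟩
  · obtain ⟨rfl, rfl⟩ := h
    exact gcol_ok _ _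
  · obtain ⟨k, t, h1, rfl, rfl⟩ := h
    subst h1
    simp only [rcol, gcol_xor]
    have h2 := ccol_match _ _ _ (hne j') t
    fin_cases k
    · exact h2.1
    · exact h2.2.1
    · exact h2.2.2
  · exact h.elim
  · obtain ⟨rfl, he⟩ := h
    exact ccol_edges _ _ _ (hne j) (x, y) ((mem_gadgetEdges (x, y)).mpr he)

theorem complete (h : NAESat φ) : circChromatic (redGraph φ) ≤ 8 / 3 := by
  obtain ⟨a, ha⟩ := h
  have := circ_le_of (redGraph φ) (p := 8) (q := 3) (by norm_num) (by norm_num) (rcol φ a) (by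
    intro u v huv
    rw [redGraph, SimpleGraph.fromRel_adj] at huv
    have h1 : okPair (rcol φ a u) (rcol φ a v) := by
      rcases huv.2 with h | h
      · exact rcol_rel φ a ha h
      · exact okPair_symm (rcol_rel φ a ha h)
    have h2 := okPair_abs h1
    refine ⟨?_, ?_⟩
    · push_cast; exact h2.1
    · push_cast; linarith [h2.2])
  exact_mod_cast this

/-! ### Size -/

/-- A parametrization of the edges of the reduction graph. -/
def edgeMap : (Fin n × ZMod 5) ⊕ ((Fin m × Fin 12) ⊕ (Fin m × Fin 3 × ZMod 5)) →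
    Sym2 (RVert n m)
  | .inl (i, t) => s(.inl (i, t), .inl (i, t + 1))
  | .inr (.inl (j, e)) => s(.inr (j, (gadgetEdges.get e).1), .inr (j, (gadgetEdges.get e).2))
  | .inr (.inr (j, k, t)) =>
      s(.inl ((φ j k).1, if (φ j k).2 then -t else t), .inr (j, face k t))

theorem rel_mem_range {u v : RVert n m} (h : redRel φ u v) : s(u, v) ∈ Set.range (edgeMap φ) := by
  rcases u with ⟨i, x⟩ | ⟨j, x⟩ <;> rcases v with ⟨i', y⟩ | ⟨j', y⟩
  · obtain ⟨rfl, rfl⟩ := h
    exact ⟨.inl (i, x), rfl⟩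
  · obtain ⟨k, t, h1, rfl, rfl⟩ := h
    subst h1
    exact ⟨.inr (.inr (j', k, t)), rfl⟩
  · exact h.elim
  · obtain ⟨rfl, he⟩ := h
    obtain ⟨e, he'⟩ := List.mem_iff_get.mp ((mem_gadgetEdges (x, y)).mpr he)
    refine ⟨.inr (.inl (j, e)), ?_⟩
    have h1 : (gadgetEdges.get e).1 = x := by rw [he']
    have h2 : (gadgetEdges.get e).2 = y := by rw [he']
    change s((.inr (j, (gadgetEdges.get e).1) : RVert n m), .inr (j, (gadgetEdges.get e).2)) = _
    rw [h1, h2]

theorem edges_le : (redGraph φ).edgeSet.ncard ≤ 5 * n + 27 * m := by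
  have h1 : (redGraph φ).edgeSet ⊆ Set.range (edgeMap φ) := by
    intro e he
    induction e using Sym2.ind with
    | _ u v =>
      rw [SimpleGraph.mem_edgeSet, redGraph, SimpleGraph.fromRel_adj] at he
      rcases he.2 with h | h
      · exact rel_mem_range φ h
      · rw [Sym2.eq_swap]; exact rel_mem_range φ h
  have h2 : (Set.range (edgeMap φ)).ncard ≤ 5 * n + 27 * m := by
    rw [← Set.image_univ]
    refine (Set.ncard_image_le Set.finite_univ).trans ?_
    rw [Set.ncard_univ, Nat.card_eq_fintype_card]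
    simp only [Fintype.card_sum, Fintype.card_prod, Fintype.card_fin, ZMod.card]
    omega
  exact (Set.ncard_le_ncard h1 (Set.finite_range _)).trans h2

end red

end Pool.Agent.Lib_MP_8cd8c6_lc
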